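import Pool.Agent.BBM.Defs
import Pool.Agent.BBP.Defs
import Pool.Agent.DWG.Push
import Pool.Agent.GOX.Defs
import Pool.Agent.DTU.Defs

/-!
# Zero-cycles on products of varieties of five kinds: definitions

We consider a finite family of complex projective varieties `Y s` of the following five kinds.

1. The double coverings `y ^ 2 = ∏ e, ∏ i, h e i (x)` of the projective space of dimension `k ≥ 1` which are
   branched along `2 k + 2` hyperplanes, for arbitrary linear forms `h e i` (`e < 2`, `i < k + 1`): there are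
   no other conditions. They form families of dimension `k ^ 2`. The points are the points
   `(x, (y, x_0 ^ (k + 1), …, x_k ^ (k + 1)))` of the product of two projective spaces.
2. The smooth complete intersections `∑ j, c i j * x j ^ d = 0`, `i < r`, of `r` diagonal hypersurfaces of
   degree `d ≥ 2` in the projective space with `N` homogeneous coordinates, where all `r × r` minors of
   the matrix `c` are different from zero, `N > (r - 1) d + 1` and `2 N > r (d + 1)` (the second condition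
   follows from the first one if `r ≥ 2`). They have dimension `N - r - 1` (we assume that it is positive),
   and form families of dimension `(r - 1) (N - r - 1)`. The canonical bundle is `O(u)`, `u = r d - N`, so
   the conditions are `u < d - 1`, and `2 u < d - 1` if `r = 1`. For `N = r d` they are Calabi-Yau
   varieties. They are the abelian coverings of the projective space of dimension `N - r - 1` given by the
   `d`-th roots of the quotients of `N` linear forms in general position.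
3. The hypersurfaces `det (A(z) - B(z) diag (w i ^ M i)) = 0` in the product of `b + l` projective lines
   with the affine coordinates `z j`, `j < b`, and `w i`, `i < l`, for `b = 0`, `1` or `2` and `l ≥ 1`. Here the
   entries of the rows `i` of the `l × l` matrices `A`, `B` are forms of degree `e i j` in `z j`,
   `∑ i, e i j = 2` for all `j < b`, and the determinant is not zero. There are no other conditions. They
   have dimension `b + l - 1` (we assume that it is positive), they may be singular or reducible. If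
   `M i = 2` for all `i` then they are hypersurfaces of degree `(2, …, 2)`. For `b = 0` the entries of `A`, `B`
   are complex numbers. In general the hypersurfaces are birational to the coverings `w i ^ M i = α i / β i`
   of the projective bundle of the vector bundle `⨁ O(e i)` over the product of `b` projective lines (the
   projective space of dimension `l - 1` for `b = 0`), where the sections `α i`, `β i` of the tautological
   line bundle are given by the columns of `A`, `B`. For `M i = 2` the quotient by the even changes of signs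
   is birational to the double covering of the projective bundle which is branched along these `2 l`
   divisors. The hypersurfaces `∏ i, (1 - w i ^ M i) = λ` are special cases (`b = 0`).
4. The Dwork quintic threefolds `∑ i, x i ^ 5 = 5 t ∏ i, x i`.
5. The hypersurfaces `F(s; w_1 ^ M_1, w_2 ^ M_2, w_3 ^ M_3) = 0` in the product of four projective lines
   with the coordinates `s`, `w_1`, `w_2`, `w_3`, for all forms `F ≠ 0` of degree `2` in `s` and of degree `1` in
   each of the three other variables. They have dimension `3`, they may be singular or reducible, and they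
   form families of dimension `17`. For `M_i = 2` they are all hypersurfaces of degree `(2, 2, 2, 2)` in the
   product of four projective lines whose equation is even in three of the four affine coordinates.

For `m : S → ℕ` (`S` is the set of the indices) let `Y ^ m` be the product of the powers `(Y s) ^ (m s)`.
We define rational equivalence of zero-cycles on `Y ^ m`, automorphisms of the `Y s`, and the action of
correspondences on the holomorphic forms. Products, morphisms and the filtration are defined in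
`Pool.Agent.BBM.Defs`, points of curves (`Place`) in `Pool.Agent.ZCyc.Defs`, and the values of a morphism
from a curve to the projective space (`IsValue`) in `Pool.Agent.DCI57.Defs`.
-/

set_option autoImplicit false

noncomputable section

namespace Pool.Agent.BBO

open Pool.Agent.ZCyc Pool.Agent.BBM
open scoped LinearAlgebra.Projectivization

/-- The data of a family of varieties of the five kinds. `S₁`, …, `S₅` are the sets of the indices of
the varieties of the kinds 1, …, 5, and `S₂ ⊕ S₃ ⊕ S₄ ⊕ S₅ ⊕ S₁` is the set of all indices. -/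
structure Fly (S₁ S₂ S₃ S₄ S₅ : Type) where
  /-- kind 1: the dimensions -/
  k : S₁ → ℕ
  /-- kind 1: the coefficients of the `2 k + 2` linear forms -/
  h : ∀ s, Fin 2 → Fin (k s + 1) → Fin (k s + 1) → ℂ
  /-- kind 2: the degrees of the equations -/
  d : S₂ → ℕ
  /-- kind 2: the numbers of equations -/
  r : S₂ → ℕ
  /-- kind 2: the numbers of coordinates -/
  N : S₂ → ℕ
  /-- kind 2: the coefficients of the equations -/
  c : ∀ s, Fin (r s) → Fin (N s) → ℂ
  /-- kind 3: the dimensions of the base -/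
  b : S₃ → ℕ
  /-- kind 3: the sizes of the matrices (the numbers of coordinates `w i`) -/
  l : S₃ → ℕ
  /-- kind 3: the matrices, the degrees of the rows and the exponents -/
  V : ∀ s, DTU.Fam ℂ (b s) (l s)
  /-- kind 4: the parameters -/
  t : S₄ → ℂ
  /-- kind 5: the coefficients of the form `F` and the exponents -/
  Z : S₅ → GOX.Fam ℂ

variable {S₁ S₂ S₃ S₄ S₅ : Type} (Y : Fly S₁ S₂ S₃ S₄ S₅)

/-- The determinant `det (A(z) - B(z) diag (w i ^ M i))` in homogeneous coordinates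
`z j = σ j 0 / σ j 1`, `w i = w i 0 / w i 1`. -/
def detV {b l : ℕ} (V : DTU.Fam ℂ b l) (σ : Fin b → Fin 2 → ℂ) (w : Fin l → Fin 2 → ℂ) : ℂ :=
  (Matrix.of fun i j => DTU.ev (V.e i) (V.A i j) σ * w j 1 ^ V.M j -
    DTU.ev (V.e i) (V.B i j) σ * w j 0 ^ V.M j).det

/-- The conditions. -/
structure Fly.Ok : Prop where
  /-- kind 1: the dimensions are positive -/
  dim₁ : ∀ s, 1 ≤ Y.k s
  /-- kind 2: the degrees are at least `2`, there are equations, and the dimensions are positive -/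
  dim₂ : ∀ s, 2 ≤ Y.d s ∧ 1 ≤ Y.r s ∧ Y.r s + 2 ≤ Y.N s
  /-- kind 2: bounds for the degrees -/
  bound₂ : ∀ s, Y.r s * Y.d s + 1 < Y.N s + Y.d s ∧ Y.r s * (Y.d s + 1) < 2 * Y.N s
  /-- kind 2: all maximal minors of the matrix of the coefficients are different from zero -/
  smooth : ∀ s, ∀ f : Fin (Y.r s) → Fin (Y.N s), Function.Injective f →
    (Matrix.of fun i j => Y.c s i (f j)).det ≠ 0
  /-- kind 3: the base has dimension at most `2`, there is a coordinate `w i`, and the dimension is positive -/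
  dim₃ : ∀ s, Y.b s ≤ 2 ∧ 1 ≤ Y.l s ∧ 2 ≤ Y.b s + Y.l s
  /-- kind 3: the sums of the degrees of the rows -/
  deg₃ : ∀ s j, ∑ i, (Y.V s).e i j = 2
  /-- kind 3: the determinant is not zero -/
  det₃ : ∀ s, ∃ (σ : Fin (Y.b s) → Fin 2 → ℂ) (w : Fin (Y.l s) → Fin 2 → ℂ), detV (Y.V s) σ w ≠ 0
  /-- kind 3: the exponents -/
  exp₃ : ∀ s i, 2 ≤ (Y.V s).M i
  /-- kind 5: the form is not zero -/
  form₅ : ∀ s, ∃ a i j l, (Y.Z s).c a i j l ≠ 0
  /-- kind 5: the exponents -/
  exp₅ : ∀ s i, 2 ≤ (Y.Z s).M i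

/-- The variety `Y s` is a subset of a product of projective spaces; these are their numbers. -/
def Fly.E : S₂ ⊕ S₃ ⊕ S₄ ⊕ S₅ ⊕ S₁ → Type
  | .inl _ => Unit
  | .inr (.inl s) => Fin (Y.b s) ⊕ Fin (Y.l s)
  | .inr (.inr (.inl _)) => Unit
  | .inr (.inr (.inr (.inl _))) => Option (Fin 3)
  | .inr (.inr (.inr (.inr _))) => Fin 2

/-- The numbers of the homogeneous coordinates of the projective spaces. -/
def Fly.J : (s : S₂ ⊕ S₃ ⊕ S₄ ⊕ S₅ ⊕ S₁) → Y.E s → Type
  | .inl s => fun _ => Fin (Y.N s)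
  | .inr (.inl _) => fun _ => Fin 2
  | .inr (.inr (.inl _)) => fun _ => Fin 5
  | .inr (.inr (.inr (.inl _))) => fun _ => Fin 2
  | .inr (.inr (.inr (.inr s))) => fun (e : Fin 2) => Fin (Y.k s + 1 + e)

/-- The product of projective spaces. -/
abbrev Fly.Amb (s : S₂ ⊕ S₃ ⊕ S₄ ⊕ S₅ ⊕ S₁) : Type := ∀ e : Y.E s, ℙ ℂ (Y.J s e → ℂ)

/-- The value of the form `F` of degree `(2; 1, 1, 1)` with the coefficients `c a i j l` of
`s ^ a * W_1 ^ i * W_2 ^ j * W_3 ^ l` (`a = 0, 1, 2`; `i, j, l = 0, 1`) at `W_i = w_i ^ M_i`, in homogeneous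
coordinates `s = σ 0 / σ 1`, `w_i = w i 0 / w i 1`. (`Fin.rev` exchanges `0` and `1`.) -/
def form5 (Z : GOX.Fam ℂ) (σ : Fin 2 → ℂ) (w : Fin 3 → Fin 2 → ℂ) : ℂ :=
  ∑ a : Fin 3, ∑ i : Fin 2, ∑ j : Fin 2, ∑ l : Fin 2, Z.c a i j l *
    (σ 0 ^ (a : ℕ) * σ 1 ^ (2 - (a : ℕ)) * (w 0 (Fin.rev i) ^ Z.M 0 * w 1 (Fin.rev j) ^ Z.M 1 *
      w 2 (Fin.rev l) ^ Z.M 2))

/-- `z` is a multiple of `(y, x_0 ^ (k + 1), …, x_k ^ (k + 1))`, where `y ^ 2 = ∏ e, ∏ i, h e i (x)`. -/
def dbl {k : ℕ} (h : Fin 2 → Fin (k + 1) → Fin (k + 1) → ℂ) (x : Fin (k + 1) → ℂ)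
    (z : Fin (k + 1 + 1) → ℂ) : Prop :=
  ∃ c y : ℂ, y ^ 2 = ∏ e, ∏ i, ∑ j, h e i j * x j ∧ z 0 = c * y ∧ ∀ j, z j.succ = c * x j ^ (k + 1)

/-- The variety `Y s`, as a subset of the product of projective spaces. -/
def Fly.X : (s : S₂ ⊕ S₃ ⊕ S₄ ⊕ S₅ ⊕ S₁) → Set (Y.Amb s)
  | .inl s => {p : Unit → ℙ ℂ (Fin (Y.N s) → ℂ) |
      ∀ i, ∑ j, Y.c s i j * (p ()).rep j ^ Y.d s = 0}
  | .inr (.inl s) => {p : Fin (Y.b s) ⊕ Fin (Y.l s) → ℙ ℂ (Fin 2 → ℂ) |
      detV (Y.V s) (fun j => (p (.inl j)).rep) (fun i => (p (.inr i)).rep) = 0}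
  | .inr (.inr (.inl s)) => {p : Unit → ℙ ℂ (Fin 5 → ℂ) |
      ∑ i, (p ()).rep i ^ 5 = 5 * Y.t s * ∏ i, (p ()).rep i}
  | .inr (.inr (.inr (.inl s))) => {p : Option (Fin 3) → ℙ ℂ (Fin 2 → ℂ) |
      form5 (Y.Z s) (p none).rep (fun i => (p (some i)).rep) = 0}
  | .inr (.inr (.inr (.inr s))) => {p : ∀ e : Fin 2, ℙ ℂ (Fin (Y.k s + 1 + e) → ℂ) |
      dbl (Y.h s) (p 0).rep (p 1).rep}

/-- The points of `Y s`. -/
def Fly.P (s : S₂ ⊕ S₃ ⊕ S₄ ⊕ S₅ ⊕ S₁) : Type := {p : Y.Amb s // p ∈ Y.X s}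

/-- The dimension of `Y s`. -/
def Fly.n : S₂ ⊕ S₃ ⊕ S₄ ⊕ S₅ ⊕ S₁ → ℕ
  | .inl s => Y.N s - Y.r s - 1
  | .inr (.inl s) => Y.b s + Y.l s - 1
  | .inr (.inr (.inl _)) => 3
  | .inr (.inr (.inr (.inl _))) => 3
  | .inr (.inr (.inr (.inr s))) => Y.k s

/-- The automorphisms which we consider: kind 1: `y ↦ ζ * y` with `ζ ^ 2 = 1`; kind 2: `x ↦ (ζ j * x j)`
with `ζ j ^ d = 1`; kinds 3 and 5: `w ↦ (h i * w i)` with `h i ^ M i = 1`; kind 4: `x ↦ (h i * x (π i))` with
`h i ^ 5 = 1`, `∏ i, h i = 1` and a permutation `π`. -/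
def Fly.G : S₂ ⊕ S₃ ⊕ S₄ ⊕ S₅ ⊕ S₁ → Type
  | .inl s => Fin (Y.N s) → rootsOfUnity (Y.d s) ℂ
  | .inr (.inl s) => ∀ i, rootsOfUnity ((Y.V s).M i) ℂ
  | .inr (.inr (.inl _)) => DWK.Mon ℂ
  | .inr (.inr (.inr (.inl s))) => ∀ i, rootsOfUnity ((Y.Z s).M i) ℂ
  | .inr (.inr (.inr (.inr _))) => rootsOfUnity 2 ℂ

/-- The action of the automorphisms on the product of projective spaces. -/
def Fly.ap : (s : S₂ ⊕ S₃ ⊕ S₄ ⊕ S₅ ⊕ S₁) → Y.G s → Y.Amb s → Y.Amb s
  | .inl s => fun (ζ : Fin (Y.N s) → rootsOfUnity (Y.d s) ℂ)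
      (p : Unit → ℙ ℂ (Fin (Y.N s) → ℂ)) => fun e => BBP.mul ζ (p e)
  | .inr (.inl s) => fun (h : ∀ i, rootsOfUnity ((Y.V s).M i) ℂ)
      (p : Fin (Y.b s) ⊕ Fin (Y.l s) → ℙ ℂ (Fin 2 → ℂ)) => fun e => match e with
        | .inl j => p (.inl j)
        | .inr i => BBP.mul ![h i, 1] (p (.inr i))
  | .inr (.inr (.inl _)) => fun (g : DWK.Mon ℂ) (p : Unit → ℙ ℂ (Fin 5 → ℂ)) =>
      fun e => DWG.actP g (p e)
  | .inr (.inr (.inr (.inl s))) => fun (h : ∀ i, rootsOfUnity ((Y.Z s).M i) ℂ)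
      (p : Option (Fin 3) → ℙ ℂ (Fin 2 → ℂ)) => fun e => match e with
        | none => p none
        | some i => BBP.mul ![h i, 1] (p (some i))
  | .inr (.inr (.inr (.inr s))) => fun (ζ : rootsOfUnity 2 ℂ)
      (p : ∀ e : Fin 2, ℙ ℂ (Fin (Y.k s + 1 + e) → ℂ)) => fun (e : Fin 2) => match e with
        | 0 => p 0
        | 1 => BBP.mul (N := Y.k s + 1 + 1) (Fin.cons ζ fun _ => 1) (p 1)

private theorem mul_rep {d N : ℕ} (ζ : Fin N → rootsOfUnity d ℂ) (p : ℙ ℂ (Fin N → ℂ)) :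
    ∃ a : ℂ, ∀ j, (BBP.mul ζ p).rep j = a * (((ζ j : ℂˣ) : ℂ) * p.rep j) := by
  obtain ⟨a, ha⟩ := Projectivization.exists_smul_eq_mk_rep ℂ
    (fun j => ((ζ j : ℂˣ) : ℂ) * p.rep j) (BBP.mul_ne ζ p)
  exact ⟨(a : ℂ), fun j => (congrFun ha j).symm⟩

private theorem root_pow {d : ℕ} (h : rootsOfUnity d ℂ) : ((h : ℂˣ) : ℂ) ^ d = 1 := by
  have h1 := congrArg Units.val ((mem_rootsOfUnity d (h : ℂˣ)).1 h.2)
  simpa using h1

private theorem mem_two {b l : ℕ} (V : DTU.Fam ℂ b l) (h : ∀ i, rootsOfUnity (V.M i) ℂ)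
    (σ : Fin b → Fin 2 → ℂ) (p : Fin l → ℙ ℂ (Fin 2 → ℂ))
    (hp : detV V σ (fun i => (p i).rep) = 0) :
    detV V σ (fun i => (BBP.mul ![h i, 1] (p i)).rep) = 0 := by
  choose a ha using fun i => mul_rep ![h i, 1] (p i)
  have h1 : (Matrix.of fun i j => DTU.ev (V.e i) (V.A i j) σ *
        (BBP.mul ![h j, 1] (p j)).rep 1 ^ V.M j -
      DTU.ev (V.e i) (V.B i j) σ * (BBP.mul ![h j, 1] (p j)).rep 0 ^ V.M j) =
      Matrix.of fun i j => a j ^ V.M j * (Matrix.of fun i j =>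
        DTU.ev (V.e i) (V.A i j) σ * (p j).rep 1 ^ V.M j -
        DTU.ev (V.e i) (V.B i j) σ * (p j).rep 0 ^ V.M j) i j := by
    ext i j
    have h2 : (BBP.mul ![h j, 1] (p j)).rep 1 = a j * (p j).rep 1 := by
      rw [ha]
      simp
    have h3 : (BBP.mul ![h j, 1] (p j)).rep 0 ^ V.M j = a j ^ V.M j * (p j).rep 0 ^ V.M j := by
      rw [ha, mul_pow, mul_pow]
      have h4 : (((![h j, 1] : Fin 2 → rootsOfUnity (V.M j) ℂ) 0 : ℂˣ) : ℂ) ^ V.M j = 1 :=
        root_pow (h j)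
      rw [h4, one_mul]
    simp only [Matrix.of_apply]
    rw [h2, h3, mul_pow]
    ring
  unfold detV at hp ⊢
  rw [h1, Matrix.det_mul_row, hp, mul_zero]

private theorem mem_five (Z : GOX.Fam ℂ) (h : ∀ i, rootsOfUnity (Z.M i) ℂ) (σ : Fin 2 → ℂ)
    (p : Fin 3 → ℙ ℂ (Fin 2 → ℂ)) (hp : form5 Z σ (fun i => (p i).rep) = 0) :
    form5 Z σ (fun i => (BBP.mul ![h i, 1] (p i)).rep) = 0 := by
  choose a ha using fun i => mul_rep ![h i, 1] (p i)
  have key : ∀ (e : Fin 3) (i : Fin 2), (BBP.mul ![h e, 1] (p e)).rep (Fin.rev i) ^ Z.M e =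
      a e ^ Z.M e * (p e).rep (Fin.rev i) ^ Z.M e := by
    intro e i
    rw [ha, mul_pow, mul_pow]
    fin_cases i
    · simp
    · have h4 : (((![h e, 1] : Fin 2 → rootsOfUnity (Z.M e) ℂ) 0 : ℂˣ) : ℂ) ^ Z.M e = 1 :=
        root_pow (h e)
      have h5 : Fin.rev (⟨1, by decide⟩ : Fin 2) = 0 := rfl
      rw [h5, h4, one_mul]
  have h1 : form5 Z σ (fun i => (BBP.mul ![h i, 1] (p i)).rep) =
      a 0 ^ Z.M 0 * a 1 ^ Z.M 1 * a 2 ^ Z.M 2 * form5 Z σ (fun i => (p i).rep) := by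
    unfold form5
    simp only [key, Finset.mul_sum]
    refine Finset.sum_congr rfl fun _ _ => Finset.sum_congr rfl fun _ _ =>
      Finset.sum_congr rfl fun _ _ => Finset.sum_congr rfl fun _ _ => ?_
    ring
  rw [h1, hp, mul_zero]

private theorem mem_dbl {k : ℕ} (h : Fin 2 → Fin (k + 1) → Fin (k + 1) → ℂ) (ζ : rootsOfUnity 2 ℂ)
    (p : ℙ ℂ (Fin (k + 1) → ℂ)) (q : ℙ ℂ (Fin (k + 1 + 1) → ℂ)) (hp : dbl h p.rep q.rep) :
    dbl h p.rep (BBP.mul (Fin.cons ζ fun _ => 1) q).rep := by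
  obtain ⟨c, y, hy, h0, h1⟩ := hp
  obtain ⟨a, ha⟩ := mul_rep (Fin.cons ζ fun _ => 1 : Fin (k + 1 + 1) → rootsOfUnity 2 ℂ) q
  refine ⟨a * c, ((ζ : ℂˣ) : ℂ) * y, ?_, ?_, fun j => ?_⟩
  · rw [mul_pow, root_pow, one_mul, hy]
  · rw [ha, Fin.cons_zero, h0]
    ring
  · rw [ha, Fin.cons_succ, h1]
    simp
    ring

theorem Fly.ap_mem : ∀ (s : S₂ ⊕ S₃ ⊕ S₄ ⊕ S₅ ⊕ S₁) (g : Y.G s) (p : Y.Amb s), p ∈ Y.X s → Y.ap s g p ∈ Y.X s
  | .inl s, g, p, hp => BBP.mul_mem (Y.c s) g (p := p ()) hp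
  | .inr (.inl s), g, p, hp => mem_two (Y.V s) g
    (fun j => Projectivization.rep (K := ℂ) (V := Fin 2 → ℂ) (p (.inl j))) (fun i => p (.inr i)) hp
  | .inr (.inr (.inl s)), g, p, hp => by
    have h0 : ∀ p : ℙ ℂ (Fin 5 → ℂ), MvPolynomial.aeval p.rep
        (DWK.dwork (Y.t s) : MvPolynomial (Fin 5) ℂ) =
        ∑ i, p.rep i ^ 5 - 5 * Y.t s * ∏ i, p.rep i := by
      intro p
      unfold DWK.dwork
      rw [map_sub, map_sum, map_mul, map_prod, MvPolynomial.aeval_C]
      simp only [map_pow, MvPolynomial.aeval_X]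
      rfl
    have h1 : MvPolynomial.aeval (Projectivization.rep (K := ℂ) (V := Fin 5 → ℂ) (p ()))
        (DWK.dwork (Y.t s) : MvPolynomial (Fin 5) ℂ) = 0 := by
      exact (h0 _).trans (sub_eq_zero.2 hp)
    have h2 := DWG.aeval_actP (k := ℂ) g h1
    exact sub_eq_zero.1 ((h0 _).symm.trans h2)
  | .inr (.inr (.inr (.inl s))), g, p, hp => mem_five (Y.Z s) g
    (Projectivization.rep (K := ℂ) (V := Fin 2 → ℂ) (p none)) (fun i => p (some i)) hp
  | .inr (.inr (.inr (.inr s))), g, p, hp => mem_dbl (Y.h s) g (p (0 : Fin 2)) (p (1 : Fin 2)) hp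

/-- The action of the automorphisms on the points of `Y s`. -/
def Fly.act (s : S₂ ⊕ S₃ ⊕ S₄ ⊕ S₅ ⊕ S₁) (g : Y.G s) (p : Y.P s) : Y.P s :=
  ⟨Y.ap s g p.1, Y.ap_mem s g p.1 p.2⟩

/-- The zero-cycles on `Y ^ m` (with rational coefficients) which are rationally equivalent to zero.
They are generated by the cycles `φ_* (π^* a - π^* b)`, for all finite Galois coverings `π : D → ℙ¹` of
smooth projective curves, given by extensions `F` of `ℂ(t)`, all points `a` and `b` (`≠ ∞`) of `ℙ¹`, and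
all morphisms `φ` from `D` to `Y ^ m`, whose components have the homogeneous coordinates `x i e`. Here
`π^* a` is the sum of the points `τ v`, for all `τ` in the Galois group, where `v` is a point of `D`
above `a`. (Every function on a curve is dominated by a Galois covering, so this is rational
equivalence with rational coefficients.) -/
def Fly.rat (m : S₂ ⊕ S₃ ⊕ S₄ ⊕ S₅ ⊕ S₁ → ℕ) : Submodule ℚ (Pts Y.P m →₀ ℚ) :=
  Submodule.span ℚ {z | ∃ (F : Type) (_ : Field F) (_ : Algebra ℂ F) (_ : Algebra (RatFunc ℂ) F)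
    (_ : IsScalarTower ℂ (RatFunc ℂ) F) (_ : FiniteDimensional (RatFunc ℂ) F)
    (_ : IsGalois (RatFunc ℂ) F) (x : ∀ (i : Idx m) (e : Y.E i.1), Y.J i.1 e → F)
    (φ : Place ℂ F → Pts Y.P m) (_ : ∀ v i e, DCI57.IsValue v (x i e) ((φ v i).1 e)) (a b : ℂ)
    (v w : Place ℂ F)
    (_ : v.Vanishes (algebraMap (RatFunc ℂ) F (RatFunc.X - RatFunc.C a)))
    (_ : w.Vanishes (algebraMap (RatFunc ℂ) F (RatFunc.X - RatFunc.C b))),
    z = ∑ τ : F ≃ₐ[RatFunc ℂ] F, (Finsupp.single (φ (v.map (τ.restrictScalars ℂ))) 1 -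
      Finsupp.single (φ (w.map (τ.restrictScalars ℂ))) 1)}

/-! ### Holomorphic forms -/

/-- A basis of the holomorphic forms of the highest degree on `Y s` (sections of the dualizing sheaf):
one form for the kinds 1 and 4, the forms `∏ x_j ^ (b j - 1) Ω` with `b j > 0` and `∑ j, b j = r d` for kind 2
(`Ω` is the residue of the standard form), and for the kinds 3 and 5 the forms
`ω_a = ∏ w_i ^ (a i - 1) ⋀ dw_i / d(equation)` (residues; for kind 3 with the additional factor `∏ dz_j`, for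
kind 5 with the additional factor `ds`) with `0 < a i < M i`. If `Y s` is irreducible and has canonical
singularities then these are the forms on a resolution. -/
def Fly.Form : S₂ ⊕ S₃ ⊕ S₄ ⊕ S₅ ⊕ S₁ → Type
  | .inl s => {b : Fin (Y.N s) → ℕ // (∀ j, 0 < b j) ∧ ∑ j, b j = Y.r s * Y.d s}
  | .inr (.inl s) => {a : Fin (Y.l s) → ℕ // ∀ i, 0 < a i ∧ a i < (Y.V s).M i}
  | .inr (.inr (.inl _)) => Unit
  | .inr (.inr (.inr (.inl s))) => {a : Fin 3 → ℕ // ∀ i, 0 < a i ∧ a i < (Y.Z s).M i}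
  | .inr (.inr (.inr (.inr _))) => Unit

/-- The number by which an automorphism multiplies the form: `ζ` for kind 1, `∏ ζ j ^ b j` for kind 2,
`∏ h i ^ a i` for the kinds 3 and 5, the sign of the permutation for kind 4. -/
def Fly.om : (s : S₂ ⊕ S₃ ⊕ S₄ ⊕ S₅ ⊕ S₁) → Y.Form s → Y.G s → ℂ
  | .inl s => fun (b : {b : Fin (Y.N s) → ℕ // (∀ j, 0 < b j) ∧ ∑ j, b j = Y.r s * Y.d s})
      (ζ : Fin (Y.N s) → rootsOfUnity (Y.d s) ℂ) => ∏ j, ((ζ j : ℂˣ) : ℂ) ^ b.1 j
  | .inr (.inl s) => fun (a : {a : Fin (Y.l s) → ℕ // ∀ i, 0 < a i ∧ a i < (Y.V s).M i})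
      (h : ∀ i, rootsOfUnity ((Y.V s).M i) ℂ) => ∏ i, ((h i : ℂˣ) : ℂ) ^ a.1 i
  | .inr (.inr (.inl _)) => fun _ (g : DWK.Mon ℂ) => ((Equiv.Perm.sign g.π : ℤ) : ℂ)
  | .inr (.inr (.inr (.inl s))) => fun (a : {a : Fin 3 → ℕ // ∀ i, 0 < a i ∧ a i < (Y.Z s).M i})
      (h : ∀ i, rootsOfUnity ((Y.Z s).M i) ℂ) => ∏ i, ((h i : ℂˣ) : ℂ) ^ a.1 i
  | .inr (.inr (.inr (.inr _))) => fun _ (ζ : rootsOfUnity 2 ℂ) => ((ζ : ℂˣ) : ℂ)

/-- (For families `P` of sets, `G` of automorphisms, `Form` of bases of the forms of the highest degrees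
`n`, which the automorphisms multiply by `om`; `S` is the set of the indices.) The forms of degree `ν` on
`Y ^ m'` have as a basis the products of the forms `b` on the factors given by increasing sequences `J s`
of `k s` factors of `(Y s) ^ (m' s)`, for all `k : S → ℕ` with `∑ n s * k s = ν`, and likewise for
`Y ^ m`. This is the coefficient of the form `(I, b')` in the pull-back of the form `(J, b)` by `f`: if
the component `J s x` of `f` is the automorphism `g ⟨s, x⟩` of the factor `I s (τ s x)`, for all `s` and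
`x`, and `b' ∘ τ = b`, then it is the product of the numbers by which the `g ⟨s, x⟩` multiply the forms
`b ⟨s, x⟩` and of the sign which comes from the permutation of forms of degree `n s`. Otherwise it is
zero. -/
def coefOf {S : Type} [Fintype S] {P G Form : S → Type} (n : S → ℕ) (om : ∀ s, Form s → G s → ℂ)
    {m m' k : S → ℕ} (f : Mor P G m m') (I : ∀ s, Fin (k s) ↪o Fin (m s))
    (J : ∀ s, Fin (k s) ↪o Fin (m' s)) (b b' : ∀ i : Idx k, Form i.1) : ℂ := by
  classical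
  exact if h : ∃ g : (∀ s, Equiv.Perm (Fin (k s))) × (∀ i : Idx k, G i.1),
      Induces f I J g.1 g.2 ∧ ∀ i : Idx k, b' ⟨i.1, g.1 i.1 i.2⟩ = b i then
    (∏ s, (((Equiv.Perm.sign (h.choose.1 s) : ℤˣ) : ℤ) : ℂ) ^ n s) *
      ∏ i : Idx k, om i.1 (b i) (h.choose.2 i) else 0

/-- The coefficient of the form `(I, b')` in the pull-back of the form `(J, b)` by `f`. -/
def Fly.coef [Fintype S₁] [Fintype S₂] [Fintype S₃] [Fintype S₄] [Fintype S₅] {m m' k : S₂ ⊕ S₃ ⊕ S₄ ⊕ S₅ ⊕ S₁ → ℕ}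
    (f : Mor Y.P Y.G m m') (I : ∀ s, Fin (k s) ↪o Fin (m s)) (J : ∀ s, Fin (k s) ↪o Fin (m' s))
    (b b' : ∀ i : Idx k, Y.Form i.1) : ℂ :=
  coefOf Y.n Y.om f I J b b'

/-- The correspondence `γ` from `Y ^ m` to `Y ^ m'` acts as zero on the holomorphic `ν`-forms. -/
def Fly.KillsForms [Fintype S₁] [Fintype S₂] [Fintype S₃] [Fintype S₄] [Fintype S₅] {m m' : S₂ ⊕ S₃ ⊕ S₄ ⊕ S₅ ⊕ S₁ → ℕ}
    (γ : Mor Y.P Y.G m m' →₀ ℚ) (ν : ℕ) : Prop :=
  ∀ k : S₂ ⊕ S₃ ⊕ S₄ ⊕ S₅ ⊕ S₁ → ℕ, ν = ∑ s, Y.n s * k s → ∀ (I : ∀ s, Fin (k s) ↪o Fin (m s))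
    (J : ∀ s, Fin (k s) ↪o Fin (m' s)) (b b' : ∀ i : Idx k, Y.Form i.1),
      ∑ f ∈ γ.support, (γ f : ℂ) * Y.coef f I J b b' = 0

end Pool.Agent.BBO
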