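import Pool.Agent.BBO.Defs
import Pool.Agent.DCV.Lift

/-!
# Points of double coverings
-/

set_option autoImplicit false

noncomputable section

namespace Pool.Agent.BBO

open Pool.Agent.ZCyc Pool.Agent.BBM Pool.Agent.DCV
open scoped LinearAlgebra.Projectivization

variable {k : ℕ} {h : Fin 2 → Fin (k + 1) → Fin (k + 1) → ℂ}

/-- the coordinates of the second point -/
def zc {K : Type} [Field K] (x : Fin (k + 1) → K) (y : K) : Fin (k + 1 + 1) → K :=
  Fin.cons y fun j => x j ^ (k + 1)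

theorem zc_ne {K : Type} [Field K] {x : Fin (k + 1) → K} (hx : x ≠ 0) (y : K) : zc x y ≠ 0 := by
  intro h0
  apply hx
  funext j
  have h1 := congrFun h0 j.succ
  unfold zc at h1
  rw [Fin.cons_succ, Pi.zero_apply] at h1
  exact eq_zero_of_pow_eq_zero h1

/-- the point with the coordinates `x`, `y` -/
def ptZ (x : Fin (k + 1) → ℂ) (hx : x ≠ 0) (y : ℂ) : ∀ e : Fin 2, ℙ ℂ (Fin (k + 1 + e) → ℂ)
  | 0 => Projectivization.mk ℂ x hx
  | 1 => Projectivization.mk ℂ (V := Fin (k + 1 + 1) → ℂ) (zc x y) (zc_ne hx y)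

/-- the equation -/
def eqn (h : Fin 2 → Fin (k + 1) → Fin (k + 1) → ℂ) {K : Type} [Field K] [Algebra ℂ K]
    (x : Fin (k + 1) → K) (y : K) : Prop := y ^ 2 = ∏ e, ∏ i, lf (h e i) x

theorem dbl_iff {x : Fin (k + 1) → ℂ} {z : Fin (k + 1 + 1) → ℂ} : dbl h x z ↔
    ∃ c y : ℂ, eqn h x y ∧ z 0 = c * y ∧ ∀ j, z j.succ = c * x j ^ (k + 1) := Iff.rfl

theorem eqn_smul {K : Type} [Field K] [Algebra ℂ K] {x : Fin (k + 1) → K} {y : K} (hy : eqn h x y)
    (a : K) : eqn h (fun j => a * x j) (a ^ (k + 1) * y) := by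
  unfold eqn at hy ⊢
  simp only [lf_smul, Finset.prod_mul_distrib, Finset.prod_const, Finset.card_univ,
    Fintype.card_fin]
  rw [mul_pow, hy]

theorem dbl_smul_left {x : Fin (k + 1) → ℂ} {z : Fin (k + 1 + 1) → ℂ} (hd : dbl h x z) {a : ℂ}
    (ha : a ≠ 0) : dbl h (fun j => a * x j) z := by
  obtain ⟨c, y, hy, h0, h1⟩ := dbl_iff.1 hd
  refine dbl_iff.2 ⟨c * (a ^ (k + 1))⁻¹, a ^ (k + 1) * y, eqn_smul hy a, ?_, fun j => ?_⟩
  · rw [h0]
    field_simp
  · rw [h1, mul_pow]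
    field_simp

theorem dbl_smul_right {x : Fin (k + 1) → ℂ} {z : Fin (k + 1 + 1) → ℂ} (hd : dbl h x z) (b : ℂ) :
    dbl h x fun j => b * z j := by
  obtain ⟨c, y, hy, h0, h1⟩ := dbl_iff.1 hd
  refine dbl_iff.2 ⟨b * c, y, hy, ?_, fun j => ?_⟩
  · rw [h0, mul_assoc]
  · rw [h1, mul_assoc]

private theorem rep_mk {n : ℕ} (x : Fin n → ℂ) (hx : x ≠ 0) :
    ∃ a : ℂ, a ≠ 0 ∧ (Projectivization.mk ℂ x hx).rep = fun j => a * x j := by
  obtain ⟨a, ha⟩ := Projectivization.exists_smul_eq_mk_rep ℂ x hx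
  exact ⟨(a : ℂ), Units.ne_zero a, ha.symm⟩

theorem dbl_zc {x : Fin (k + 1) → ℂ} {y : ℂ} (hy : eqn h x y) : dbl h x (zc x y) :=
  dbl_iff.2 ⟨1, y, hy, by rw [one_mul]; rfl, fun j => by rw [one_mul]; rfl⟩

theorem dbl_mk {x : Fin (k + 1) → ℂ} (hx : x ≠ 0) {y : ℂ} (hy : eqn h x y) :
    dbl h (ptZ x hx y 0).rep (ptZ x hx y 1).rep := by
  obtain ⟨a, ha, h1⟩ := rep_mk x hx
  obtain ⟨b, hb, h2⟩ := rep_mk (zc x y) (zc_ne hx y)
  change dbl h (Projectivization.mk ℂ x hx).rep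
    (Projectivization.mk ℂ (V := Fin (k + 1 + 1) → ℂ) (zc x y) (zc_ne hx y)).rep
  rw [h1, h2]
  exact dbl_smul_left (dbl_smul_right (dbl_zc hy) b) ha

/-- all points are of this form -/
theorem exists_ptZ {p : ∀ e : Fin 2, ℙ ℂ (Fin (k + 1 + e) → ℂ)}
    (hp : dbl h (p 0).rep (p 1).rep) :
    ∃ (x : Fin (k + 1) → ℂ) (hx : x ≠ 0) (y : ℂ), eqn h x y ∧ p = ptZ x hx y := by
  obtain ⟨c, y, hy, h0, h1⟩ := dbl_iff.1 hp
  refine ⟨(p 0).rep, (p 0).rep_nonzero, y, hy, ?_⟩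
  have hc : (p 1).rep = fun j => c * zc (p 0).rep y j := by
    funext j
    cases j using Fin.cases with
    | zero => exact h0
    | succ j => exact h1 j
  funext e
  have hcases : ∀ e : Fin 2, e = 0 ∨ e = 1 := by decide
  rcases hcases e with rfl | rfl
  · exact (Projectivization.mk_rep _).symm
  · change p 1 = Projectivization.mk ℂ (V := Fin (k + 1 + 1) → ℂ) (zc (p 0).rep y) _
    conv_lhs => rw [← Projectivization.mk_rep (p 1)]
    rw [Projectivization.mk_eq_mk_iff']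
    exact ⟨c, hc.symm⟩

/-- multiples of the coordinates -/
theorem ptZ_smul {x : Fin (k + 1) → ℂ} (hx : x ≠ 0) (y a : ℂ)
    (hx' : (fun j => a * x j) ≠ 0) : ptZ (fun j => a * x j) hx' (a ^ (k + 1) * y) = ptZ x hx y := by
  funext e
  have hcases : ∀ e : Fin 2, e = 0 ∨ e = 1 := by decide
  rcases hcases e with rfl | rfl
  · change Projectivization.mk ℂ (fun j => a * x j) hx' = Projectivization.mk ℂ x hx
    rw [Projectivization.mk_eq_mk_iff']
    exact ⟨a, rfl⟩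
  · change Projectivization.mk ℂ (V := Fin (k + 1 + 1) → ℂ) (zc _ _) _ =
      Projectivization.mk ℂ (V := Fin (k + 1 + 1) → ℂ) (zc _ _) _
    rw [Projectivization.mk_eq_mk_iff']
    refine ⟨a ^ (k + 1), ?_⟩
    funext j
    cases j using Fin.cases with
    | zero => rfl
    | succ j =>
      change a ^ (k + 1) * x j ^ (k + 1) = (a * x j) ^ (k + 1)
      rw [mul_pow]

end Pool.Agent.BBO
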