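import Pool.Agent.BBO.Cl
import Pool.Agent.BBO.InstA
import Pool.Agent.BBO.KDet
import Pool.Agent.BBO.KDblA
import Pool.Agent.FermatZ.Values

/-!
# The double coverings

Let `s` be an index of the first kind. A class function on the double covering `Y s` gives a class function
on the hypersurface `DCV.fam (Y.h s)` (`Pool.Agent.DCV.Lift`): the value at the point `P` is the value at the
point `(x, yy P x)`, for any vector `x ≠ 0` with `Nl P x`; the theorems `DTU.IsCls₁.ind` and `DTU.swap` apply.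
-/

set_option autoImplicit false

noncomputable section

namespace Pool.Agent.BBO

open Pool.Agent.BBX Pool.Agent.DCV
open Pool.Agent.ZCyc Pool.Agent.BBM Pool.Agent.Dess Pool.Agent.TInc Pool.Agent.GT
open Pool.Agent.GBB (zeta psi)
open Pool.Agent.HGF (fst snd form vlo)
open scoped LinearAlgebra.Projectivization Classical

/-! ### Values at places -/

/-- homogeneous coordinates with values -/
theorem exists_scale {K : Type} [Field K] [Algebra ℂ K] [HasRes ℂ K] (v : Place ℂ K) {n : ℕ}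
    {x : Fin n → K} (hx : x ≠ 0) :
    ∃ (t : K) (a : Fin n → ℂ), a ≠ 0 ∧ ∀ j, v.At (t * x j) (a j) := by
  obtain ⟨i₁, hi₁⟩ := Function.ne_iff.1 hx
  obtain ⟨i₀, -, hmax⟩ := Finset.exists_max_image Finset.univ (fun i => v.ring.valuation (x i))
    ⟨i₁, Finset.mem_univ _⟩
  have hx0 : x i₀ ≠ 0 := by
    intro h
    have h1 := hmax i₁ (Finset.mem_univ _)
    rw [h, map_zero, le_zero_iff, Valuation.zero_iff] at h1
    exact hi₁ h1
  have hmem : ∀ i, (x i₀)⁻¹ * x i ∈ v.ring := by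
    intro i
    rw [← v.ring.valuation_le_one_iff, map_mul, map_inv₀]
    have hne : v.ring.valuation (x i₀) ≠ 0 := by
      rw [Valuation.ne_zero_iff]
      exact hx0
    rw [inv_mul_le_iff₀ (zero_lt_iff.2 hne), mul_one]
    exact hmax i (Finset.mem_univ _)
  choose p hp using fun i => HasRes.res v _ (hmem i)
  have hp0 : p i₀ = 1 := by
    have h1 := hp i₀
    rw [inv_mul_cancel₀ hx0] at h1
    have h2 := Place.at_const (v := v) (1 : ℂ)
    rw [map_one] at h2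
    exact h1.unique h2
  exact ⟨(x i₀)⁻¹, p, fun h => by
    rw [h] at hp0
    exact zero_ne_one hp0, hp⟩

private theorem isValue_mk' {K : Type} [Field K] [Algebra ℂ K] {v : Place ℂ K} {n : ℕ}
    {x : Fin n → K} {p : Fin n → ℂ} (hp : p ≠ 0) {c : K} (h : ∀ i, v.At (c * x i) (p i)) :
    DCI57.IsValue v x (Projectivization.mk ℂ p hp) := by
  obtain ⟨a, ha⟩ := Projectivization.exists_smul_eq_mk_rep ℂ p hp
  refine ⟨algebraMap ℂ K a * c, fun i => ?_⟩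
  rw [← ha, mul_assoc]
  exact (Place.at_const (a : ℂ)).mul (h i)

section

variable {k : ℕ} {h : Fin 2 → Fin (k + 1) → Fin (k + 1) → ℂ}

/-- the coordinates -/
def crd {K : Type} [Field K] (X : Fin (k + 1) → K) (y : K) : ∀ e : Fin 2, Fin (k + 1 + e) → K
  | 0 => X
  | 1 => (zc X y : Fin (k + 1 + 1) → K)

theorem isValue_ptZ {K : Type} [Field K] [Algebra ℂ K] {v : Place ℂ K} {X : Fin (k + 1) → K} {y t : K}
    {a : Fin (k + 1) → ℂ} (ha : a ≠ 0) {b : ℂ} (hX : ∀ j, v.At (t * X j) (a j))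
    (hy : v.At (t ^ (k + 1) * y) b) (e : Fin 2) : DCI57.IsValue v (crd X y e) (ptZ a ha b e) := by
  have hcases : ∀ e : Fin 2, e = 0 ∨ e = 1 := by decide
  rcases hcases e with rfl | rfl
  · exact isValue_mk' ha hX
  · refine isValue_mk' (n := k + 1 + 1) (x := zc X y) (p := zc a b) (zc_ne ha b)
      (c := t ^ (k + 1)) fun i => ?_
    cases i using Fin.cases with
    | zero => exact hy
    | succ j =>
      change v.At (t ^ (k + 1) * X j ^ (k + 1)) (a j ^ (k + 1))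
      rw [← mul_pow]
      exact (hX j).pow _

end

variable {S₁ S₂ S₃ S₄ S₅ : Type} {Y : Fly S₁ S₂ S₃ S₄ S₅} {W : Type} [AddCommGroup W] [Module ℂ W]

/-- the point with the coordinates `x`, `y` -/
def pZ {s : S₁} (x : Fin (Y.k s + 1) → ℂ) (hx : x ≠ 0) (y : ℂ) (hy : eqn (Y.h s) x y) :
    Y.P (.inr (.inr (.inr (.inr s)))) := ⟨ptZ x hx y, dbl_mk hx hy⟩

/-- the function `f` in coordinates -/
def fZ {s : S₁} (f : Y.P (.inr (.inr (.inr (.inr s)))) → W) (x : Fin (Y.k s + 1) → ℂ) (y : ℂ) : W :=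
  if hh : x ≠ 0 ∧ eqn (Y.h s) x y then f (pZ x hh.1 y hh.2) else 0

omit [Module ℂ W] in
theorem fZ_eq {s : S₁} (f : Y.P (.inr (.inr (.inr (.inr s)))) → W) {x : Fin (Y.k s + 1) → ℂ}
    (hx : x ≠ 0) {y : ℂ} (hy : eqn (Y.h s) x y) : fZ f x y = f (pZ x hx y hy) := by
  unfold fZ
  rw [dif_pos ⟨hx, hy⟩]

omit [Module ℂ W] in
theorem fZ_smul {s : S₁} (f : Y.P (.inr (.inr (.inr (.inr s)))) → W) {x : Fin (Y.k s + 1) → ℂ}
    (hx : x ≠ 0) {y : ℂ} (hy : eqn (Y.h s) x y) {a : ℂ} (ha : a ≠ 0) :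
    fZ f (fun j => a * x j) (a ^ (Y.k s + 1) * y) = fZ f x y := by
  have hx' : (fun j => a * x j) ≠ 0 := by
    intro h0
    apply hx
    funext j
    have h1 := congrFun h0 j
    exact (mul_eq_zero.1 h1).resolve_left ha
  rw [fZ_eq f hx' (eqn_smul hy a), fZ_eq f hx hy]
  congr 1
  exact Subtype.ext (ptZ_smul hx y a hx')

theorem eqn_yy {k : ℕ} {h : Fin 2 → Fin (k + 1) → Fin (k + 1) → ℂ} {K : Type} [Field K] [Algebra ℂ K]
    {P : Fin (k + 1) → Option K} {x : Fin (k + 1) → K} (hx : Nl h P x) : eqn h x (yy h P x) :=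
  yy_sq hx

/-- all points -/
theorem exists_pZ {s : S₁} (p : Y.P (.inr (.inr (.inr (.inr s))))) :
    ∃ (P : Fin (Y.k s + 1) → Option ℂ) (x : Fin (Y.k s + 1) → ℂ) (hx : x ≠ 0)
      (hN : Nl (Y.h s) P x), p = pZ x hx (yy (Y.h s) P x) (eqn_yy hN) := by
  obtain ⟨x, hx, y, hy, hp⟩ := exists_ptZ (p := p.1) p.2
  obtain ⟨P, hN, h1⟩ := exists_P (Nat.succ_pos _) hy
  refine ⟨P, x, hx, hN, Subtype.ext (hp.trans ?_)⟩
  change ptZ x hx y = ptZ x hx (yy (Y.h s) P x)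
  rw [h1]

/-- the values of a point over the function field of a curve -/
private theorem exists_phi {s : S₁} {K : Type} [Field K] [Algebra ℂ K] [HasRes ℂ K]
    {w : Fin (Y.k s + 1) → Option K} {X : Fin (Y.k s + 1) → K} (hX : X ≠ 0) (hN : Nl (Y.h s) w X)
    (v : Place ℂ K) : ∃ (a : Fin (Y.k s + 1) → ℂ) (ha : a ≠ 0)
      (hNa : Nl (Y.h s) (fun i => vlo v (w i)) a), ∀ e, DCI57.IsValue v (crd X (yy (Y.h s) w X) e)
        ((pZ a ha _ (eqn_yy hNa)).1 e) := by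
  obtain ⟨t, a, ha, h1⟩ := exists_scale v hX
  obtain ⟨h2, h3⟩ := vlo_yy hN h1
  exact ⟨a, ha, h2, isValue_ptZ ha h1 h3⟩

/-! ### Independence of the vector -/

private theorem hasRes_rat : HasRes ℂ (RatFunc ℂ) := ⟨fun v _ hf => DCI57.exists_at v hf⟩

private theorem hτ_Five (τ : RatFunc ℂ ≃ₐ[RatFunc ℂ] RatFunc ℂ) : τ = 1 := by
  ext z
  exact τ.commutes z

private theorem hmap_Five (u : Place ℂ (RatFunc ℂ)) (τ : RatFunc ℂ ≃ₐ[RatFunc ℂ] RatFunc ℂ) :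
    u.map (τ.restrictScalars ℂ) = u := by
  rw [hτ_Five τ]
  exact u.map_one

/-- class functions have the same values at two points of a rational curve -/
private theorem Cl1_line {s : S₁} {f : Y.P (.inr (.inr (.inr (.inr s)))) → W} (hf : Y.Cl1 f)
    (x : ∀ e : Fin 2, Fin (Y.k s + 1 + e) → RatFunc ℂ)
    (φ : Place ℂ (RatFunc ℂ) → Y.P (.inr (.inr (.inr (.inr s)))))
    (hφ : ∀ v e, DCI57.IsValue v (x e) ((φ v).1 e)) {v w : Place ℂ (RatFunc ℂ)}
    (hv : v.At RatFunc.X 0) (hw : w.At RatFunc.X 1) : f (φ v) = f (φ w) := by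
  have hvan : ∀ {u : Place ℂ (RatFunc ℂ)} {c : ℂ}, u.At RatFunc.X c →
      u.Vanishes (algebraMap (RatFunc ℂ) (RatFunc ℂ) (RatFunc.X - RatFunc.C c)) := by
    intro u c hu
    rw [Algebra.algebraMap_self, RingHom.id_apply]
    exact hu
  have h := hf (RatFunc ℂ) x φ hφ 0 1 v w (hvan hv) (hvan hw)
  have : Unique (RatFunc ℂ ≃ₐ[RatFunc ℂ] RatFunc ℂ) := ⟨⟨1⟩, hτ_Five⟩
  rw [Fintype.sum_unique, hmap_Five, hmap_Five] at h
  exact sub_eq_zero.1 h

private theorem isValue_uniq {K : Type} [Field K] [Algebra ℂ K] {v : Place ℂ K} {n : ℕ}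
    {x : Fin n → K} {P Q : ℙ ℂ (Fin n → ℂ)} (hP : DCI57.IsValue v x P)
    (hQ : DCI57.IsValue v x Q) : P = Q := Pool.Agent.FermatZ.IsValue.unique hP hQ

private theorem pt_uniq {s : S₁} {K : Type} [Field K] [Algebra ℂ K] {v : Place ℂ K}
    {x : ∀ e : Fin 2, Fin (Y.k s + 1 + e) → K} {p q : Y.P (.inr (.inr (.inr (.inr s))))}
    (hp : ∀ e : Fin 2, DCI57.IsValue v (x e) (p.1 e)) (hq : ∀ e : Fin 2, DCI57.IsValue v (x e) (q.1 e)) :
    p = q :=
  Subtype.ext (funext fun (e : Fin 2) => isValue_uniq (hp e) (hq e))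

theorem indep {s : S₁} {f : Y.P (.inr (.inr (.inr (.inr s)))) → W} (hf : Y.Cl1 f)
    {P : Fin (Y.k s + 1) → Option ℂ} {x x' : Fin (Y.k s + 1) → ℂ} (hx : x ≠ 0) (hx' : x' ≠ 0)
    (hN : Nl (Y.h s) P x) (hN' : Nl (Y.h s) P x') :
    fZ f x (yy (Y.h s) P x) = fZ f x' (yy (Y.h s) P x') := by
  by_cases hdep : ∃ a : ℂ, x' = fun j => a * x j
  · obtain ⟨a, rfl⟩ := hdep
    have ha : a ≠ 0 := by
      intro h0
      apply hx'
      funext j
      rw [h0, zero_mul]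
      rfl
    rw [yy_smul, fZ_smul f hx (eqn_yy hN) ha]
  · have := hasRes_rat
    set w : Fin (Y.k s + 1) → Option (RatFunc ℂ) := fun i => (P i).map (algebraMap ℂ (RatFunc ℂ))
      with hw
    set X : Fin (Y.k s + 1) → RatFunc ℂ := fun j => (1 - RatFunc.X) * algebraMap ℂ (RatFunc ℂ) (x j) +
      RatFunc.X * algebraMap ℂ (RatFunc ℂ) (x' j) with hXdef
    have hXN : Nl (Y.h s) w X := (hN.const.smul _).add (hN'.const.smul _)
    have at1 : ∀ v : Place ℂ (RatFunc ℂ), v.At (1 : RatFunc ℂ) (1 : ℂ) := fun v => by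
      have h1 := Place.at_const (v := v) (1 : ℂ)
      rwa [map_one] at h1
    have hat : ∀ (v : Place ℂ (RatFunc ℂ)) (c : ℂ), v.At RatFunc.X c → ∀ j,
        v.At (1 * X j) ((1 - c) * x j + c * x' j) := by
      intro v c hc j
      rw [one_mul]
      exact (((at1 v).sub hc).mul (Place.at_const (x j))).add (hc.mul (Place.at_const (x' j)))
    obtain ⟨v, hv⟩ := exists_place (k := ℂ) (F := RatFunc ℂ) RatFunc.transcendental_X 0
    obtain ⟨v', hv'⟩ := exists_place (k := ℂ) (F := RatFunc ℂ) RatFunc.transcendental_X 1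
    have hX0 : X ≠ 0 := by
      intro h0
      apply hx
      funext j
      have h1 := hat v 0 hv j
      rw [h0, Pi.zero_apply, mul_zero, sub_zero, one_mul, zero_mul, add_zero] at h1
      have h2 := Place.at_const (v := v) (0 : ℂ)
      rw [map_zero] at h2
      exact h1.unique h2
    choose a ha hNa hφ using fun v => exists_phi (Y := Y) hX0 hXN v
    have h1 := Cl1_line hf (crd X (yy (Y.h s) w X)) (fun v => pZ (a v) (ha v) _ (eqn_yy (hNa v))) hφ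
      hv hv'
    have hvlo : ∀ v : Place ℂ (RatFunc ℂ), (fun i => vlo v (w i)) = P := fun v =>
      funext fun i => HGF.vlo_const v _
    have e1 : pZ (a v) (ha v) _ (eqn_yy (hNa v)) = pZ x hx _ (eqn_yy hN) := by
      refine pt_uniq (hφ v) ?_
      have h2 : ∀ j, v.At (1 * X j) (x j) := by
        intro j
        have h3 := hat v 0 hv j
        rwa [show (1 - (0 : ℂ)) * x j + 0 * x' j = x j by ring] at h3
      have h4 := (vlo_yy hXN h2).2
      rw [hvlo] at h4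
      exact isValue_ptZ hx h2 h4
    have e2 : pZ (a v') (ha v') _ (eqn_yy (hNa v')) = pZ x' hx' _ (eqn_yy hN') := by
      refine pt_uniq (hφ v') ?_
      have h2 : ∀ j, v'.At (1 * X j) (x' j) := by
        intro j
        have h3 := hat v' 1 hv' j
        rwa [show (1 - (1 : ℂ)) * x j + 1 * x' j = x' j by ring] at h3
      have h4 := (vlo_yy hXN h2).2
      rw [hvlo] at h4
      exact isValue_ptZ hx' h2 h4
    rw [fZ_eq f hx (eqn_yy hN), fZ_eq f hx' (eqn_yy hN'), ← e1, ← e2]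
    exact h1

/-- the function on the hypersurface -/
def fP {s : S₁} (f : Y.P (.inr (.inr (.inr (.inr s)))) → W) (P : Fin (Y.k s + 1) → Option ℂ) : W :=
  if hh : ∃ x : Fin (Y.k s + 1) → ℂ, x ≠ 0 ∧ Nl (Y.h s) P x then
    fZ f hh.choose (yy (Y.h s) P hh.choose) else 0

theorem fP_eq {s : S₁} {f : Y.P (.inr (.inr (.inr (.inr s)))) → W} (hf : Y.Cl1 f)
    {P : Fin (Y.k s + 1) → Option ℂ} {x : Fin (Y.k s + 1) → ℂ} (hx : x ≠ 0) (hN : Nl (Y.h s) P x) :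
    fP f P = f (pZ x hx _ (eqn_yy hN)) := by
  have hh : ∃ x : Fin (Y.k s + 1) → ℂ, x ≠ 0 ∧ Nl (Y.h s) P x := ⟨x, hx, hN⟩
  unfold fP
  rw [dif_pos hh, indep hf hh.choose_spec.1 hx hh.choose_spec.2 hN, fZ_eq f hx (eqn_yy hN)]

theorem fP_smul {s : S₁} (a : ℂ) (f : Y.P (.inr (.inr (.inr (.inr s)))) → W)
    (P : Fin (Y.k s + 1) → Option ℂ) : fP (fun p => a • f p) P = a • fP f P := by
  unfold fP
  split_ifs with hh
  · unfold fZ
    split_ifs with h2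
    · rfl
    · simp
  · simp

/-! ### The group -/

theorem act_pZ {s : S₁} (ζ : rootsOfUnity 2 ℂ) {x : Fin (Y.k s + 1) → ℂ} (hx : x ≠ 0) {y : ℂ}
    (hy : eqn (Y.h s) x y) (hy' : eqn (Y.h s) x (((ζ : ℂˣ) : ℂ) * y)) :
    Y.act (.inr (.inr (.inr (.inr s)))) ζ (pZ x hx y hy) = pZ x hx (((ζ : ℂˣ) : ℂ) * y) hy' := by
  refine Subtype.ext (funext fun (e : Fin 2) => ?_)
  have hcases : ∀ e : Fin 2, e = 0 ∨ e = 1 := by decide
  rcases hcases e with rfl | rfl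
  · rfl
  · change BBP.mul (N := Y.k s + 1 + 1) (Fin.cons ζ fun _ => 1)
      (Projectivization.mk ℂ (V := Fin (Y.k s + 1 + 1) → ℂ) (zc x y) (zc_ne hx y)) =
      Projectivization.mk ℂ (V := Fin (Y.k s + 1 + 1) → ℂ) (zc x (((ζ : ℂˣ) : ℂ) * y)) _
    unfold BBP.mul
    obtain ⟨a, ha⟩ := Projectivization.exists_smul_eq_mk_rep ℂ (zc x y) (zc_ne hx y)
    rw [Projectivization.mk_eq_mk_iff']
    refine ⟨(a : ℂ), ?_⟩
    rw [← ha]
    funext j
    cases j using Fin.cases with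
    | zero =>
      change (a : ℂ) * (((ζ : ℂˣ) : ℂ) * y) = ((ζ : ℂˣ) : ℂ) * ((a : ℂ) * y)
      ring
    | succ j =>
      change (a : ℂ) * x j ^ (Y.k s + 1) = (((1 : rootsOfUnity 2 ℂ) : ℂˣ) : ℂ) *
        ((a : ℂ) * x j ^ (Y.k s + 1))
      simp

private theorem isValue_mul5 {F : Type} [Field F] [Algebra ℂ F] (v : Place ℂ F) {d N : ℕ}
    (ζ : Fin N → rootsOfUnity d ℂ) (x : Fin N → F) (p : ℙ ℂ (Fin N → ℂ))
    (h : DCI57.IsValue v x p) :
    DCI57.IsValue v (fun j => algebraMap ℂ F ((ζ j : ℂˣ) : ℂ) * x j) (BBP.mul ζ p) := by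
  obtain ⟨t, hs⟩ := h
  obtain ⟨a, ha⟩ := Projectivization.exists_smul_eq_mk_rep ℂ
    (fun j => ((ζ j : ℂˣ) : ℂ) * p.rep j) (BBP.mul_ne ζ p)
  have ha' : ∀ j, (BBP.mul ζ p).rep j = (a : ℂ) * (((ζ j : ℂˣ) : ℂ) * p.rep j) :=
    fun j => (congrFun ha j).symm
  refine ⟨algebraMap ℂ F a * t, fun j => ?_⟩
  have h1 := ((Place.at_const (v := v) ((a : ℂ) * ((ζ j : ℂˣ) : ℂ)))).mul
    (show v.At (t * x j) (p.rep j) from hs j)
  rw [ha']
  unfold Place.At at h1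
  convert h1 using 1
  simp only [map_mul]
  ring

/-- the coordinates of the image of a point under an automorphism -/
private def xh5 {F : Type} [Field F] [Algebra ℂ F] {k : ℕ} (ζ : rootsOfUnity 2 ℂ)
    (x : ∀ e : Fin 2, Fin (k + 1 + e) → F) : ∀ e : Fin 2, Fin (k + 1 + e) → F
  | 0 => x 0
  | 1 => fun j => algebraMap ℂ F (((Fin.cons ζ (fun _ => 1) :
      Fin (k + 1 + 1) → rootsOfUnity 2 ℂ) j : ℂˣ) : ℂ) * x 1 j

private theorem isValue_ap5 {F : Type} [Field F] [Algebra ℂ F] {s : S₁} (ζ : rootsOfUnity 2 ℂ)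
    {v : Place ℂ F} {x : ∀ e : Fin 2, Fin (Y.k s + 1 + e) → F}
    {p : ∀ e : Fin 2, ℙ ℂ (Fin (Y.k s + 1 + e) → ℂ)} (hx : ∀ e, DCI57.IsValue v (x e) (p e))
    (e : Fin 2) : DCI57.IsValue v (xh5 ζ x e) (Y.ap (.inr (.inr (.inr (.inr s)))) ζ p e) := by
  have hcases : ∀ e : Fin 2, e = 0 ∨ e = 1 := by decide
  rcases hcases e with rfl | rfl
  · exact hx 0
  · exact isValue_mul5 (N := Y.k s + 1 + 1) v _ _ _ (hx 1)

theorem Fly.Cl1.actZ {s : S₁} {f : Y.P (.inr (.inr (.inr (.inr s)))) → W} (hf : Y.Cl1 f)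
    (ζ : rootsOfUnity 2 ℂ) : Y.Cl1 fun p => f (Y.act (.inr (.inr (.inr (.inr s)))) ζ p) := by
  intro F _ _ _ _ _ _ x φ hx a b v w hv hw
  exact hf F (xh5 ζ x) (fun v => Y.act (.inr (.inr (.inr (.inr s)))) ζ (φ v))
    (fun v e => isValue_ap5 ζ (hx v) e) a b v w hv hw

theorem Fly.Cl2.actZ {s : S₁}
    {f : Y.P (.inr (.inr (.inr (.inr s)))) → Y.P (.inr (.inr (.inr (.inr s)))) → W}
    (hf : Y.Cl2 f) (ζ ζ' : rootsOfUnity 2 ℂ) :
    Y.Cl2 fun p q => f (Y.act (.inr (.inr (.inr (.inr s)))) ζ p)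
      (Y.act (.inr (.inr (.inr (.inr s)))) ζ' q) := by
  intro F _ _ _ _ _ _ x x' φ φ' hx hx' a b v w hv hw
  exact hf F (xh5 ζ x) (xh5 ζ' x') (fun v => Y.act (.inr (.inr (.inr (.inr s)))) ζ (φ v))
    (fun v => Y.act (.inr (.inr (.inr (.inr s)))) ζ' (φ' v)) (fun v e => isValue_ap5 ζ (hx v) e)
    (fun v e => isValue_ap5 ζ' (hx' v) e) a b v w hv hw

private theorem rot_rot5 {n : ℕ} (i : Fin n) {u : ℂ} (hu : u ^ 2 = 1) (P : Fin n → Option ℂ) :
    HYG.rot i u (HYG.rot i u P) = P := by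
  funext j
  unfold HYG.rot
  by_cases hj : j = i
  · subst hj
    rw [Function.update_self, Function.update_self]
    cases P j with
    | none => rfl
    | some w =>
      rw [Option.map_some, Option.map_some]
      congr 1
      linear_combination w * hu
  · rw [Function.update_of_ne hj, Function.update_of_ne hj]

theorem fP_rot {s : S₁} {f : Y.P (.inr (.inr (.inr (.inr s)))) → W} (hf : Y.Cl1 f)
    (ζ : rootsOfUnity 2 ℂ) (hζ : ((ζ : ℂˣ) : ℂ) ^ 2 = 1) (i : Fin (Y.k s + 1))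
    (P : Fin (Y.k s + 1) → Option ℂ) :
    fP f (HYG.rot i ((ζ : ℂˣ) : ℂ) P) =
      fP (fun p => f (Y.act (.inr (.inr (.inr (.inr s)))) ζ p)) P := by
  by_cases hh : ∃ x : Fin (Y.k s + 1) → ℂ, x ≠ 0 ∧ Nl (Y.h s) P x
  · obtain ⟨x, hx, hN⟩ := hh
    have hN' := hN.rot i hζ
    rw [fP_eq hf hx hN', fP_eq (hf.actZ ζ) hx hN]
    have h1 : eqn (Y.h s) x (((ζ : ℂˣ) : ℂ) * yy (Y.h s) P x) := by
      have h2 := eqn_yy hN'
      rwa [yy_rot] at h2
    rw [act_pZ ζ hx (eqn_yy hN) h1]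
    congr 1
    refine Subtype.ext ?_
    change ptZ x hx _ = ptZ x hx _
    rw [yy_rot]
  · have hh' : ¬ ∃ x : Fin (Y.k s + 1) → ℂ, x ≠ 0 ∧ Nl (Y.h s) (HYG.rot i ((ζ : ℂˣ) : ℂ) P) x := by
      rintro ⟨x, hx, hN⟩
      refine hh ⟨x, hx, ?_⟩
      have h1 := hN.rot i hζ
      rwa [rot_rot5 i hζ] at h1
    unfold fP
    rw [dif_neg hh, dif_neg hh']

/-! ### Class functions on the hypersurface -/

theorem Fly.Cl1.isCFZ {s : S₁} {f : Y.P (.inr (.inr (.inr (.inr s)))) → W} (hf : Y.Cl1 f) :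
    DTU.IsCF₁ (fam (Y.h s)) fun _ P => fP f P := by
  intro K _ _ hK σ w g hg hw
  have : GT.HasRes ℂ K := GT.hasRes_of_isCurve hK
  obtain ⟨X, hX, hN⟩ := (on_iff (Y.h s)).1 hw
  choose a ha hNa hφ using fun v => exists_phi (Y := Y) hX hN v
  have h1 := hf.div hK (crd X (yy (Y.h s) w X)) (fun v => pZ (a v) (ha v) _ (eqn_yy (hNa v))) hφ hg
  rw [← h1]
  refine Finset.sum_congr rfl fun v _ => ?_
  beta_reduce
  rw [Int.cast_smul_eq_zsmul]
  congr 1
  exact fP_eq hf (ha v) (hNa v)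

theorem fP2_eq {s : S₁}
    {f : Y.P (.inr (.inr (.inr (.inr s)))) → Y.P (.inr (.inr (.inr (.inr s)))) → W} (hf : Y.Cl2 f)
    {P P' : Fin (Y.k s + 1) → Option ℂ} {x x' : Fin (Y.k s + 1) → ℂ} (hx : x ≠ 0) (hx' : x' ≠ 0)
    (hN : Nl (Y.h s) P x) (hN' : Nl (Y.h s) P' x') :
    fP (fun p => fP (f p) P') P = f (pZ x hx _ (eqn_yy hN)) (pZ x' hx' _ (eqn_yy hN')) := by
  have h1 : (fun p => fP (f p) P') = fun p => f p (pZ x' hx' _ (eqn_yy hN')) :=
    funext fun p => fP_eq (hf.right p) hx' hN'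
  rw [h1, fP_eq (hf.left _) hx hN]

theorem Fly.Cl2.isCFZ {s : S₁}
    {f : Y.P (.inr (.inr (.inr (.inr s)))) → Y.P (.inr (.inr (.inr (.inr s)))) → W}
    (hf : Y.Cl2 f) :
    DTU.IsCF₂ (fam (Y.h s)) fun _ P _ P' => fP (fun p => fP (f p) P') P := by
  intro K _ _ hK σ w σ' w' g hg hw hw'
  have : GT.HasRes ℂ K := GT.hasRes_of_isCurve hK
  obtain ⟨X, hX, hN⟩ := (on_iff (Y.h s)).1 hw
  obtain ⟨X', hX', hN'⟩ := (on_iff (Y.h s)).1 hw'
  choose a ha hNa hφ using fun v => exists_phi (Y := Y) hX hN v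
  choose a' ha' hNa' hφ' using fun v => exists_phi (Y := Y) hX' hN' v
  have h1 := hf.div hK (crd X (yy (Y.h s) w X)) (crd X' (yy (Y.h s) w' X'))
    (fun v => pZ (a v) (ha v) _ (eqn_yy (hNa v))) (fun v => pZ (a' v) (ha' v) _ (eqn_yy (hNa' v)))
    hφ hφ' hg
  rw [← h1]
  refine Finset.sum_congr rfl fun v _ => ?_
  beta_reduce
  rw [Int.cast_smul_eq_zsmul]
  congr 1
  exact fP2_eq hf (ha v) (ha' v) (hNa v) (hNa' v)

/-! ### The parts -/

variable [Fintype S₂] [Fintype S₃] [Fintype S₅] [∀ s, NeZero (Y.d s)]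
  [∀ s i, NeZero ((Y.V s).M i)] [∀ s i, NeZero ((Y.Z s).M i)]

omit [Fintype S₂] [Fintype S₃] [Fintype S₅] in
theorem Fly.Cl1.prZ {s : S₁} {f : Y.P (.inr (.inr (.inr (.inr s)))) → W} (hf : Y.Cl1 f)
    (c : Y.K (.inr (.inr (.inr (.inr s))))) : Y.Cl1 (Y.pr (.inr (.inr (.inr (.inr s)))) c f) :=
  Fly.Cl1.sum Finset.univ (Y.wt (.inr (.inr (.inr (.inr s)))) c) fun κ => hf.actZ
    (BBP.rt ((κ : Fin 1 → ZMod 2) 0))

omit [Fintype S₂] [Fintype S₃] [Fintype S₅] in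
theorem Fly.Cl2.prZ {s : S₁}
    {f : Y.P (.inr (.inr (.inr (.inr s)))) → Y.P (.inr (.inr (.inr (.inr s)))) → W}
    (hf : Y.Cl2 f) (c c' : Y.K (.inr (.inr (.inr (.inr s))))) :
    Y.Cl2 (Y.pr2 (.inr (.inr (.inr (.inr s)))) (.inr (.inr (.inr (.inr s)))) c c' f) := by
  have h1 := Fly.Cl2.sum (Y := Y) (Finset.univ : Finset (Y.K (.inr (.inr (.inr (.inr s)))) ×
    Y.K (.inr (.inr (.inr (.inr s)))))) (fun κ => Y.wt (.inr (.inr (.inr (.inr s)))) c κ.1 *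
      Y.wt (.inr (.inr (.inr (.inr s)))) c' κ.2) fun κ => hf.actZ
        (BBP.rt ((κ.1 : Fin 1 → ZMod 2) 0)) (BBP.rt ((κ.2 : Fin 1 → ZMod 2) 0))
  have h2 : Y.pr2 (.inr (.inr (.inr (.inr s)))) (.inr (.inr (.inr (.inr s)))) c c' f = fun p q =>
      ∑ κ : Y.K (.inr (.inr (.inr (.inr s)))) × Y.K (.inr (.inr (.inr (.inr s)))),
        (Y.wt (.inr (.inr (.inr (.inr s)))) c κ.1 * Y.wt (.inr (.inr (.inr (.inr s)))) c' κ.2) •
          f (Y.act (.inr (.inr (.inr (.inr s)))) (BBP.rt ((κ.1 : Fin 1 → ZMod 2) 0)) p)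
            (Y.act (.inr (.inr (.inr (.inr s)))) (BBP.rt ((κ.2 : Fin 1 → ZMod 2) 0)) q) := by
    funext p q
    rw [Fintype.sum_prod_type]
    rfl
  rw [h2]
  exact h1

private theorem exists_root5 {u : ℂ} (hu : u ^ 2 = 1) :
    ∃ ζ : rootsOfUnity 2 ℂ, ((ζ : ℂˣ) : ℂ) = u := by
  have hu0 : u ≠ 0 := by
    intro h
    rw [h, zero_pow two_ne_zero] at hu
    exact zero_ne_one hu
  refine ⟨⟨Units.mk0 u hu0, ?_⟩, rfl⟩
  rw [mem_rootsOfUnity]
  ext
  exact hu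

omit [Fintype S₂] [Fintype S₃] [Fintype S₅] in
private theorem pr_actZ {s : S₁} (c : Fin 1 → ZMod 2) (f : Y.P (.inr (.inr (.inr (.inr s)))) → W)
    (ζ : rootsOfUnity 2 ℂ) (p : Y.P (.inr (.inr (.inr (.inr s))))) :
    Y.pr (.inr (.inr (.inr (.inr s)))) c f (Y.act (.inr (.inr (.inr (.inr s)))) ζ p) =
      ((ζ : ℂˣ) : ℂ) ^ (c 0).val • Y.pr (.inr (.inr (.inr (.inr s)))) c f p :=
  pr_act₅ Y s c f ζ p

omit [Fintype S₂] [Fintype S₃] [Fintype S₅] in
/-- the eigenfunctions -/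
theorem clsZ {s : S₁} {f : Y.P (.inr (.inr (.inr (.inr s)))) → W} (hf : Y.Cl1 f)
    (c : Fin 1 → ZMod 2) :
    DTU.IsCls₁ (fam (Y.h s)) (fun _ (u : ℂ) => u ^ (c 0).val)
      fun _ P => fP (Y.pr (.inr (.inr (.inr (.inr s)))) c f) P := by
  refine ⟨(hf.prZ c).isCFZ, fun σ P i u hu => ?_⟩
  obtain ⟨ζ, rfl⟩ := exists_root5 hu
  rw [fP_rot (hf.prZ c) ζ hu]
  have h1 : (fun p => Y.pr (.inr (.inr (.inr (.inr s)))) c f
      (Y.act (.inr (.inr (.inr (.inr s)))) ζ p)) =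
      fun p => ((ζ : ℂˣ) : ℂ) ^ (c 0).val • Y.pr (.inr (.inr (.inr (.inr s)))) c f p := by
    funext p
    exact pr_actZ c f ζ p
  rw [h1, fP_smul]

omit [Fintype S₂] [Fintype S₃] [Fintype S₅] in
theorem pr_const₅ {s : S₁} {f : Y.P (.inr (.inr (.inr (.inr s)))) → W} (hf : Y.Cl1 f)
    (c : Fin 1 → ZMod 2) (hc : c 0 = 0) (p q : Y.P (.inr (.inr (.inr (.inr s))))) :
    Y.pr (.inr (.inr (.inr (.inr s)))) c f p = Y.pr (.inr (.inr (.inr (.inr s)))) c f q := by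
  obtain ⟨P, x, hx, hN, rfl⟩ := exists_pZ p
  obtain ⟨Q, x', hx', hN', rfl⟩ := exists_pZ q
  rw [← fP_eq (hf.prZ c) hx hN, ← fP_eq (hf.prZ c) hx' hN']
  refine (clsZ hf c).ind (fun _ => two_pos) (i := 0) (fun u _ => ?_)
    (z := fun _ => none) (z' := fun _ => none) ((on_iff (Y.h s)).2 ⟨x, hx, hN⟩)
    ((on_iff (Y.h s)).2 ⟨x', hx', hN'⟩)
  rw [hc, ZMod.val_zero, pow_zero]

omit [Fintype S₂] [Fintype S₃] [Fintype S₅] in
private theorem pr2_left5 {s : S₁} (c c' : Y.K (.inr (.inr (.inr (.inr s)))))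
    (f : Y.P (.inr (.inr (.inr (.inr s)))) → Y.P (.inr (.inr (.inr (.inr s)))) → W)
    (p q : Y.P (.inr (.inr (.inr (.inr s))))) :
    Y.pr2 (.inr (.inr (.inr (.inr s)))) (.inr (.inr (.inr (.inr s)))) c c' f p q =
      Y.pr (.inr (.inr (.inr (.inr s)))) c (fun p => ∑ κ' : Y.K (.inr (.inr (.inr (.inr s)))),
        Y.wt (.inr (.inr (.inr (.inr s)))) c' κ' •
          f p (Y.av (.inr (.inr (.inr (.inr s)))) κ' q)) p := by
  unfold Fly.pr2 Fly.pr
  simp only [Finset.smul_sum, mul_smul]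

omit [Fintype S₂] [Fintype S₃] [Fintype S₅] in
private theorem pr2_right5 {s : S₁} (c c' : Y.K (.inr (.inr (.inr (.inr s)))))
    (f : Y.P (.inr (.inr (.inr (.inr s)))) → Y.P (.inr (.inr (.inr (.inr s)))) → W)
    (p q : Y.P (.inr (.inr (.inr (.inr s))))) :
    Y.pr2 (.inr (.inr (.inr (.inr s)))) (.inr (.inr (.inr (.inr s)))) c c' f p q =
      Y.pr (.inr (.inr (.inr (.inr s)))) c' (fun q => ∑ κ : Y.K (.inr (.inr (.inr (.inr s)))),
        Y.wt (.inr (.inr (.inr (.inr s)))) c κ •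
          f (Y.av (.inr (.inr (.inr (.inr s)))) κ p) q) q := by
  unfold Fly.pr2 Fly.pr
  rw [Finset.sum_comm]
  simp only [Finset.smul_sum, mul_smul]
  refine Finset.sum_congr rfl fun κ' _ => Finset.sum_congr rfl fun κ _ => ?_
  rw [smul_comm]

omit [Fintype S₂] [Fintype S₃] [Fintype S₅] in
theorem pr_swap₅ {s : S₁}
    {f : Y.P (.inr (.inr (.inr (.inr s)))) → Y.P (.inr (.inr (.inr (.inr s)))) → W} (hf : Y.Cl2 f)
    (c : Fin 1 → ZMod 2) (hc : c 0 ≠ 0) (p q : Y.P (.inr (.inr (.inr (.inr s))))) :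
    Y.pr2 (.inr (.inr (.inr (.inr s)))) (.inr (.inr (.inr (.inr s)))) c c f p q =
      (-1 : ℂ) ^ Y.n (.inr (.inr (.inr (.inr s)))) •
        Y.pr2 (.inr (.inr (.inr (.inr s)))) (.inr (.inr (.inr (.inr s)))) c c f q p := by
  obtain ⟨P, x, hx, hN, rfl⟩ := exists_pZ p
  obtain ⟨Q, x', hx', hN', rfl⟩ := exists_pZ q
  have hcl := hf.prZ c c
  rw [← fP2_eq hcl hx hx' hN hN', ← fP2_eq hcl hx' hx hN' hN]
  have hχ : HYG.Chars (fam (Y.h s)).M (fun _ (u : ℂ) => u ^ (c 0).val) := by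
    refine ⟨fun i u u' _ _ => mul_pow _ _ _, fun i => ?_, fun i => one_pow _⟩
    exact HYG.exists_nontriv (fun h => hc ((ZMod.val_eq_zero _).1 h)) (ZMod.val_lt _)
  have hl : ∀ (ζ : rootsOfUnity 2 ℂ) (p q : Y.P (.inr (.inr (.inr (.inr s))))),
      Y.pr2 (.inr (.inr (.inr (.inr s)))) (.inr (.inr (.inr (.inr s)))) c c f
        (Y.act (.inr (.inr (.inr (.inr s)))) ζ p) q = ((ζ : ℂˣ) : ℂ) ^ (c 0).val •
      Y.pr2 (.inr (.inr (.inr (.inr s)))) (.inr (.inr (.inr (.inr s)))) c c f p q := by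
    intro ζ p q
    exact (pr2_left5 c c f _ q).trans ((pr_actZ c _ ζ p).trans
      (congrArg (((ζ : ℂˣ) : ℂ) ^ (c 0).val • ·) (pr2_left5 c c f p q).symm))
  have hr : ∀ (ζ : rootsOfUnity 2 ℂ) (p q : Y.P (.inr (.inr (.inr (.inr s))))),
      Y.pr2 (.inr (.inr (.inr (.inr s)))) (.inr (.inr (.inr (.inr s)))) c c f p
        (Y.act (.inr (.inr (.inr (.inr s)))) ζ q) = ((ζ : ℂˣ) : ℂ) ^ (c 0).val •
      Y.pr2 (.inr (.inr (.inr (.inr s)))) (.inr (.inr (.inr (.inr s)))) c c f p q := by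
    intro ζ p q
    exact (pr2_right5 c c f p _).trans ((pr_actZ c _ ζ q).trans
      (congrArg (((ζ : ℂˣ) : ℂ) ^ (c 0).val • ·) (pr2_right5 c c f p q).symm))
  have hcls : DTU.IsCls₂ (fam (Y.h s)) (fun _ (u : ℂ) => u ^ (c 0).val) fun _ P _ P' =>
      fP (fun p => fP (fun q =>
        Y.pr2 (.inr (.inr (.inr (.inr s)))) (.inr (.inr (.inr (.inr s)))) c c f p q) P') P := by
    refine ⟨hcl.isCFZ, fun σ P σ' P' i u hu => ?_, fun σ P σ' P' i u hu => ?_⟩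
    · obtain ⟨ζ, rfl⟩ := exists_root5 hu
      by_cases hh : ∃ x : Fin (Y.k s + 1) → ℂ, x ≠ 0 ∧ Nl (Y.h s) P' x
      · obtain ⟨x', hx', hN'⟩ := hh
        have e1 : (fun p => fP (fun q => Y.pr2 (.inr (.inr (.inr (.inr s))))
            (.inr (.inr (.inr (.inr s)))) c c f p q) P') = fun p =>
            Y.pr2 (.inr (.inr (.inr (.inr s)))) (.inr (.inr (.inr (.inr s)))) c c f p
              (pZ x' hx' _ (eqn_yy hN')) := funext fun p => fP_eq (hcl.right p) hx' hN'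
        rw [e1, fP_rot (hcl.left _) ζ hu, ← fP_smul]
        congr 1
        funext p
        exact hl ζ p _
      · have e1 : (fun p => fP (fun q => Y.pr2 (.inr (.inr (.inr (.inr s))))
            (.inr (.inr (.inr (.inr s)))) c c f p q) P') = fun _ => 0 := by
          funext p
          unfold fP
          rw [dif_neg hh]
        have e2 : ∀ P : Fin (Y.k s + 1) → Option ℂ,
            fP (fun _ : Y.P (.inr (.inr (.inr (.inr s)))) => (0 : W)) P = 0 := by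
          intro P
          unfold fP fZ
          split_ifs <;> rfl
        rw [e1, e2, e2, smul_zero]
    · obtain ⟨ζ, rfl⟩ := exists_root5 hu
      rw [← fP_smul]
      congr 1
      funext p
      rw [fP_rot (hcl.right p) ζ hu, ← fP_smul]
      congr 1
      funext q
      exact hr ζ p q
  have h1 := DTU.swap (r := 0) (m := Y.k s) (X := fam (Y.h s)) (by norm_num)
    (fun j => j.elim0) (fun _ => two_pos) hχ hcls (z := fun _ => none) (z' := fun _ => none)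
    ((on_iff (Y.h s)).2 ⟨x', hx', hN'⟩) ((on_iff (Y.h s)).2 ⟨x, hx, hN⟩)
  refine h1.trans ?_
  rw [add_zero, ← Int.cast_smul_eq_zsmul ℂ]
  push_cast
  rfl

end Pool.Agent.BBO
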