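import Pool.Agent.BBO.KDet
import Pool.Agent.GOX.Ind
import Pool.Agent.GOX.Main

/-!
# The varieties of the fifth kind

Let `s` be an index of the fifth kind. A point of `Y s` is given by `σ : Option ℂ` and
`P : Fin 3 → Option ℂ` with `GOX.On (Y.Z s) σ P`. A class function on `Y s` gives a class function
`GOX.IsCF₁`, the parts `Y.pr s c f` are eigenfunctions, and the theorems of `Pool/Agent/GOX/Ind.lean` and
`Pool/Agent/GOX/Main.lean` apply.
-/

set_option autoImplicit false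

noncomputable section

namespace Pool.Agent.BBO

open Pool.Agent.BBX
open Pool.Agent.ZCyc Pool.Agent.BBM Pool.Agent.Dess Pool.Agent.TInc
open Pool.Agent.GBB (zeta psi)
open Pool.Agent.HGF (fst snd form vlo)
open scoped LinearAlgebra.Projectivization Classical

/-! ### Points -/

/-- the point with the given coordinates -/
def pt5 (σ : Option ℂ) (P : Fin 3 → Option ℂ) : Option (Fin 3) → ℙ ℂ (Fin 2 → ℂ)
  | none => HYG.toP σ
  | some i => HYG.toP (P i)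

private theorem toP_rep (x : Option ℂ) : ∃ a : ℂ, a ≠ 0 ∧
    (HYG.toP x).rep = a • (![fst x, snd x] : Fin 2 → ℂ) := by
  cases x with
  | none =>
    obtain ⟨a, ha, h0, h1⟩ := HYG.toP_none (k := ℂ)
    refine ⟨a, ha, ?_⟩
    rw [HGF.fst_none, HGF.snd_none]
    funext j
    fin_cases j
    · simpa using h0
    · simpa using h1
  | some w =>
    obtain ⟨a, ha, h0, h1⟩ := HYG.toP_some w
    refine ⟨a, ha, ?_⟩
    rw [HGF.fst_some, HGF.snd_some]
    funext j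
    fin_cases j
    · simpa using h0
    · simpa using h1

theorem form5_iff (Z : GOX.Fam ℂ) (σ : Option ℂ) (P : Fin 3 → Option ℂ) :
    form5 Z (HYG.toP σ).rep (fun i => (HYG.toP (P i)).rep) = 0 ↔ GOX.On Z σ P := by
  obtain ⟨c, hc, hσ⟩ := toP_rep σ
  choose a ha hP using fun i => toP_rep (P i)
  have e0 : ∀ (e : Fin 3) (i : Fin 2), (HYG.toP (P e)).rep (Fin.rev i) = a e * GOX.lin i (P e) := by
    intro e i
    rw [hP]
    unfold GOX.lin
    fin_cases i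
    · have h1 : Fin.rev (⟨0, by decide⟩ : Fin 2) = 1 := rfl
      rw [h1]
      simp
    · have h1 : Fin.rev (⟨1, by decide⟩ : Fin 2) = 0 := rfl
      rw [h1]
      simp
  have e1 : ∀ b : Fin 3, (HYG.toP σ).rep 0 ^ (b : ℕ) * (HYG.toP σ).rep 1 ^ (2 - (b : ℕ)) =
      c ^ 2 * GOC.mon σ b := by
    intro b
    rw [hσ]
    unfold GOC.mon
    fin_cases b
    · simp
      ring
    · simp
      ring
    · simp
      ring
  have h1 : form5 Z (HYG.toP σ).rep (fun i => (HYG.toP (P i)).rep) =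
      c ^ 2 * (a 0 ^ Z.M 0 * a 1 ^ Z.M 1 * a 2 ^ Z.M 2) * Z.val σ P := by
    unfold form5 GOX.Fam.val
    simp only [e0, e1, Finset.mul_sum, mul_pow, Algebra.algebraMap_self, RingHom.id_apply]
    refine Finset.sum_congr rfl fun _ _ => Finset.sum_congr rfl fun _ _ =>
      Finset.sum_congr rfl fun _ _ => Finset.sum_congr rfl fun _ _ => ?_
    ring
  rw [h1, mul_eq_zero, or_iff_right (mul_ne_zero (pow_ne_zero _ hc) (mul_ne_zero (mul_ne_zero
    (pow_ne_zero _ (ha 0)) (pow_ne_zero _ (ha 1))) (pow_ne_zero _ (ha 2))))]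
  exact Iff.rfl

variable {S₁ S₂ S₃ S₄ S₅ : Type} {Y : Fly S₁ S₂ S₃ S₄ S₅} {W : Type} [AddCommGroup W] [Module ℂ W]

theorem mem5_iff {s : S₅} (σ : Option ℂ) (P : Fin 3 → Option ℂ) :
    (pt5 σ P : Y.Amb (.inr (.inr (.inr (.inl s))))) ∈ Y.X (.inr (.inr (.inr (.inl s)))) ↔
      GOX.On (Y.Z s) σ P :=
  form5_iff (Y.Z s) σ P

/-- a point is given by elements of `Option ℂ` -/
theorem exists_opt5 {s : S₅} (p : Y.P (.inr (.inr (.inr (.inl s))))) :
    ∃ (σ : Option ℂ) (P : Fin 3 → Option ℂ), p.1 = pt5 σ P := by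
  refine ⟨HYG.ofP (p.1 none), fun i => HYG.ofP (p.1 (some i)), ?_⟩
  funext e
  rcases e with _ | i
  · exact (HYG.toP_ofP _).symm
  · exact (HYG.toP_ofP _).symm

/-- the function `f` in coordinates (zero for points which are not on `Y s`) -/
def f5 {s : S₅} (f : Y.P (.inr (.inr (.inr (.inl s)))) → W) (σ : Option ℂ)
    (P : Fin 3 → Option ℂ) : W :=
  if h : (pt5 σ P : Y.Amb (.inr (.inr (.inr (.inl s))))) ∈ Y.X (.inr (.inr (.inr (.inl s)))) then
    f ⟨pt5 σ P, h⟩ else 0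

theorem f5_eq {s : S₅} (f : Y.P (.inr (.inr (.inr (.inl s)))) → W) {p : Y.P (.inr (.inr (.inr (.inl s))))}
    {σ : Option ℂ} {P : Fin 3 → Option ℂ} (h : p.1 = pt5 σ P) : f5 f σ P = f p := by
  have hm : (pt5 σ P : Y.Amb (.inr (.inr (.inr (.inl s))))) ∈ Y.X (.inr (.inr (.inr (.inl s)))) := h ▸ p.2
  unfold f5
  rw [dif_pos hm]
  congr 1
  exact Subtype.ext h.symm

theorem f5_smul {s : S₅} (a : ℂ) (f : Y.P (.inr (.inr (.inr (.inl s)))) → W) (σ : Option ℂ)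
    (P : Fin 3 → Option ℂ) : f5 (fun p => a • f p) σ P = a • f5 f σ P := by
  unfold f5
  split_ifs with h
  · rfl
  · simp

private theorem mul_toP5 {d : ℕ} (h : rootsOfUnity d ℂ) (P : Option ℂ) :
    BBP.mul ![h, 1] (HYG.toP P) = HYG.toP (P.map fun w => ((h : ℂˣ) : ℂ) * w) := by
  rw [← HYG.mulP_toP (Units.ne_zero _) P]
  unfold BBP.mul HYG.mulP
  congr 1
  funext j
  fin_cases j
  · rfl
  · simp

theorem ap_pt5 {s : S₅} (h : ∀ i, rootsOfUnity ((Y.Z s).M i) ℂ) (σ : Option ℂ)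
    (P : Fin 3 → Option ℂ) :
    Y.ap (.inr (.inr (.inr (.inl s)))) h (pt5 σ P) =
      pt5 σ (HYG.rotA (fun i => ((h i : ℂˣ) : ℂ)) P) := by
  funext e
  rcases e with _ | i
  · rfl
  · exact mul_toP5 (h i) (P i)

private theorem root_pow5 {d : ℕ} (h : rootsOfUnity d ℂ) : ((h : ℂˣ) : ℂ) ^ d = 1 := by
  have h1 := congrArg Units.val ((mem_rootsOfUnity d (h : ℂˣ)).1 h.2)
  simpa using h1

private theorem on_rotA5 {Z : GOX.Fam ℂ} {u : Fin 3 → ℂ} (hu : ∀ i, u i ^ Z.M i = 1)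
    (σ : Option ℂ) (P : Fin 3 → Option ℂ) : GOX.On Z σ (HYG.rotA u P) ↔ GOX.On Z σ P := by
  have h : ∀ e i, GOX.lin i (HYG.rotA u P e) ^ Z.M e = GOX.lin i (P e) ^ Z.M e := by
    intro e i
    unfold GOX.lin HYG.rotA
    cases hP : P e with
    | none => rfl
    | some w =>
      rw [Option.map_some, HGF.snd_some, HGF.snd_some, HGF.fst_some, HGF.fst_some]
      split_ifs
      · rw [mul_pow, hu, one_mul]
      · rfl
  unfold GOX.On GOX.Fam.val
  simp only [h]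

theorem f5_act {s : S₅} (f : Y.P (.inr (.inr (.inr (.inl s)))) → W)
    (h : ∀ i, rootsOfUnity ((Y.Z s).M i) ℂ) (σ : Option ℂ) (P : Fin 3 → Option ℂ) :
    f5 f σ (HYG.rotA (fun i => ((h i : ℂˣ) : ℂ)) P) =
      f5 (fun p => f (Y.act (.inr (.inr (.inr (.inl s)))) h p)) σ P := by
  unfold f5
  have hi := on_rotA5 (Z := Y.Z s) (u := fun i => ((h i : ℂˣ) : ℂ)) (fun i => root_pow5 (h i)) σ P
  rw [← mem5_iff, ← mem5_iff] at hi
  by_cases hP : (pt5 σ P : Y.Amb (.inr (.inr (.inr (.inl s))))) ∈ Y.X (.inr (.inr (.inr (.inl s))))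
  · rw [dif_pos hP, dif_pos (hi.2 hP)]
    congr 1
    exact Subtype.ext (ap_pt5 h σ P).symm
  · rw [dif_neg hP, dif_neg fun h' => hP (hi.1 h')]

/-! ### Class functions: automorphisms and sums -/

private theorem isValue_mul5 {F : Type} [Field F] [Algebra ℂ F] (v : Place ℂ F) {d N : ℕ}
    (ζ : Fin N → rootsOfUnity d ℂ) (x : Fin N → F) (p : ℙ ℂ (Fin N → ℂ))
    (h : DCI57.IsValue v x p) :
    DCI57.IsValue v (fun j => algebraMap ℂ F ((ζ j : ℂˣ) : ℂ) * x j) (BBP.mul ζ p) := by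
  obtain ⟨t, hs⟩ := h
  obtain ⟨a, ha⟩ := Projectivization.exists_smul_eq_mk_rep ℂ
    (fun j => ((ζ j : ℂˣ) : ℂ) * p.rep j) (BBP.mul_ne ζ p)
  have ha' : ∀ j, (BBP.mul ζ p).rep j = (a : ℂ) * (((ζ j : ℂˣ) : ℂ) * p.rep j) :=
    fun j => (congrFun ha j).symm
  refine ⟨algebraMap ℂ F a * t, fun j => ?_⟩
  have h3 : algebraMap ℂ F a * t * (algebraMap ℂ F ((ζ j : ℂˣ) : ℂ) * x j) -
      algebraMap ℂ F ((a : ℂ) * (((ζ j : ℂˣ) : ℂ) * p.rep j)) =
      algebraMap ℂ F (a * ((ζ j : ℂˣ) : ℂ)) * (t * x j - algebraMap ℂ F (p.rep j)) := by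
    simp only [map_mul]
    ring
  rw [ha', h3, mul_comm]
  unfold Place.Vanishes
  rw [ValuationSubring.mem_nonunits_iff, map_mul]
  have h4 := hs j
  unfold Place.Vanishes at h4
  rw [ValuationSubring.mem_nonunits_iff] at h4
  exact mul_lt_one_of_lt_of_le h4 ((v.ring.valuation_le_one_iff _).2 (v.const_mem _))

/-- the coordinates of the image of a point under an automorphism -/
private def xh {F : Type} [Field F] [Algebra ℂ F] {l : ℕ} {M : Fin l → ℕ}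
    (h : ∀ i, rootsOfUnity (M i) ℂ) (x : Option (Fin l) → Fin 2 → F) :
    Option (Fin l) → Fin 2 → F
  | none => x none
  | some i => fun j => algebraMap ℂ F (((![h i, 1] : Fin 2 → rootsOfUnity (M i) ℂ) j : ℂˣ) : ℂ) *
      x (some i) j

private theorem isValue_ap5 {F : Type} [Field F] [Algebra ℂ F] {s : S₅}
    (h : ∀ i, rootsOfUnity ((Y.Z s).M i) ℂ) {v : Place ℂ F}
    {x : Option (Fin 3) → Fin 2 → F} {p : Option (Fin 3) → ℙ ℂ (Fin 2 → ℂ)}
    (hx : ∀ e, DCI57.IsValue v (x e) (p e)) (e : Option (Fin 3)) :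
    DCI57.IsValue v (xh h x e) (Y.ap (.inr (.inr (.inr (.inl s)))) h p e) := by
  rcases e with _ | i
  · exact hx none
  · exact isValue_mul5 v _ _ _ (hx (some i))

theorem Fly.Cl1.act5 {s : S₅} {f : Y.P (.inr (.inr (.inr (.inl s)))) → W} (hf : Y.Cl1 f)
    (h : ∀ i, rootsOfUnity ((Y.Z s).M i) ℂ) :
    Y.Cl1 fun p => f (Y.act (.inr (.inr (.inr (.inl s)))) h p) := by
  intro F _ _ _ _ _ _ x φ hx a b v w hv hw
  exact hf F (xh h x) (fun v => Y.act (.inr (.inr (.inr (.inl s)))) h (φ v))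
    (fun v e => isValue_ap5 h (hx v) e) a b v w hv hw

theorem Fly.Cl2.act5 {s : S₅} {f : Y.P (.inr (.inr (.inr (.inl s)))) → Y.P (.inr (.inr (.inr (.inl s)))) → W}
    (hf : Y.Cl2 f) (h h' : ∀ i, rootsOfUnity ((Y.Z s).M i) ℂ) :
    Y.Cl2 fun p q => f (Y.act (.inr (.inr (.inr (.inl s)))) h p) (Y.act (.inr (.inr (.inr (.inl s)))) h' q) := by
  intro F _ _ _ _ _ _ x x' φ φ' hx hx' a b v w hv hw
  exact hf F (xh h x) (xh h' x') (fun v => Y.act (.inr (.inr (.inr (.inl s)))) h (φ v))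
    (fun v => Y.act (.inr (.inr (.inr (.inl s)))) h' (φ' v)) (fun v e => isValue_ap5 h (hx v) e)
    (fun v e => isValue_ap5 h' (hx' v) e) a b v w hv hw

/-! ### Class functions in coordinates -/

private theorem isValue_opt {K : Type} [Field K] [Algebra ℂ K] (hK : IsCurve ℂ K) (v : Place ℂ K)
    (x : Option K) : DCI57.IsValue v (![fst x, snd x] : Fin 2 → K) (HYG.toP (vlo v x)) := by
  cases x with
  | some f =>
    have h1 := HYG.isValue_toP hK v f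
    rw [HGF.fst_some, HGF.snd_some]
    exact h1
  | none =>
    obtain ⟨a, ha, h0, h1⟩ := HYG.toP_none (k := ℂ)
    rw [HGF.fst_none, HGF.snd_none]
    refine ⟨algebraMap ℂ K a, fun j => ?_⟩
    have h2 : algebraMap ℂ K a * (![1, 0] : Fin 2 → K) j -
        algebraMap ℂ K ((HYG.toP (vlo v (none : Option K))).rep j) = 0 := by
      rw [HGF.vlo_none]
      fin_cases j
      · change algebraMap ℂ K a * 1 - algebraMap ℂ K ((HYG.toP (none : Option ℂ)).rep 0) = 0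
        rw [h0, mul_one, sub_self]
      · change algebraMap ℂ K a * 0 - algebraMap ℂ K ((HYG.toP (none : Option ℂ)).rep 1) = 0
        rw [h1, mul_zero, map_zero, sub_self]
    rw [h2]
    exact v.vanishes_zero

private def xo {K : Type} [Field K] {l : ℕ} (σ : Option K) (w : Fin l → Option K) :
    Option (Fin l) → Fin 2 → K
  | none => ![fst σ, snd σ]
  | some i => ![fst (w i), snd (w i)]

private theorem isValue_xo {K : Type} [Field K] [Algebra ℂ K] (hK : IsCurve ℂ K) (v : Place ℂ K)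
    (σ : Option K) (w : Fin 3 → Option K) (e : Option (Fin 3)) :
    DCI57.IsValue v (xo σ w e) (pt5 (vlo v σ) (fun i => vlo v (w i)) e) := by
  rcases e with _ | i
  · exact isValue_opt hK v σ
  · exact isValue_opt hK v (w i)

theorem Fly.Cl1.isCF5 {s : S₅} {f : Y.P (.inr (.inr (.inr (.inl s)))) → W} (hf : Y.Cl1 f) :
    GOX.IsCF₁ (Y.Z s) (f5 f) := by
  intro K _ _ hK σ w g hg hw
  have : GT.HasRes ℂ K := GT.hasRes_of_isCurve hK
  have hm : ∀ v : Place ℂ K, (pt5 (vlo v σ) (fun i => vlo v (w i)) :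
      Y.Amb (.inr (.inr (.inr (.inl s))))) ∈ Y.X (.inr (.inr (.inr (.inl s)))) :=
    fun v => (mem5_iff _ _).2 (GOX.on_vlo v hw)
  have h1 := hf.div hK (xo σ w) (fun v => ⟨_, hm v⟩) (fun v e => isValue_xo hK v σ w e) hg
  rw [← h1]
  refine Finset.sum_congr rfl fun v _ => ?_
  beta_reduce
  rw [Int.cast_smul_eq_zsmul]
  congr 1
  exact f5_eq f (p := ⟨_, hm v⟩) rfl

theorem Fly.Cl2.isCF5 {s : S₅} {f : Y.P (.inr (.inr (.inr (.inl s)))) → Y.P (.inr (.inr (.inr (.inl s)))) → W}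
    (hf : Y.Cl2 f) : GOX.IsCF₂ (Y.Z s) fun σ P σ' Q => f5 (fun p => f5 (f p) σ' Q) σ P := by
  intro K _ _ hK σ w σ' w' g hg hw hw'
  have : GT.HasRes ℂ K := GT.hasRes_of_isCurve hK
  have hm : ∀ v : Place ℂ K, (pt5 (vlo v σ) (fun i => vlo v (w i)) :
      Y.Amb (.inr (.inr (.inr (.inl s))))) ∈ Y.X (.inr (.inr (.inr (.inl s)))) :=
    fun v => (mem5_iff _ _).2 (GOX.on_vlo v hw)
  have hm' : ∀ v : Place ℂ K, (pt5 (vlo v σ') (fun i => vlo v (w' i)) :
      Y.Amb (.inr (.inr (.inr (.inl s))))) ∈ Y.X (.inr (.inr (.inr (.inl s)))) :=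
    fun v => (mem5_iff _ _).2 (GOX.on_vlo v hw')
  have h1 := hf.div hK (xo σ w) (xo σ' w') (fun v => ⟨_, hm v⟩) (fun v => ⟨_, hm' v⟩)
    (fun v e => isValue_xo hK v σ w e) (fun v e => isValue_xo hK v σ' w' e) hg
  rw [← h1]
  refine Finset.sum_congr rfl fun v _ => ?_
  beta_reduce
  rw [Int.cast_smul_eq_zsmul]
  congr 1
  exact (f5_eq _ (p := ⟨_, hm v⟩) rfl).trans (f5_eq _ (p := ⟨_, hm' v⟩) rfl)

/-! ### The parts -/

variable [Fintype S₂] [Fintype S₃] [Fintype S₅] [∀ s, NeZero (Y.d s)]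
  [∀ s i, NeZero ((Y.V s).M i)] [∀ s i, NeZero ((Y.Z s).M i)]

omit [Fintype S₂] [Fintype S₃] [Fintype S₅] in
theorem Fly.Cl1.pr5 {s : S₅} {f : Y.P (.inr (.inr (.inr (.inl s)))) → W} (hf : Y.Cl1 f)
    (c : Y.K (.inr (.inr (.inr (.inl s))))) : Y.Cl1 (Y.pr (.inr (.inr (.inr (.inl s)))) c f) :=
  Fly.Cl1.sum Finset.univ (Y.wt (.inr (.inr (.inr (.inl s)))) c) fun κ => hf.act5 fun i => BBP.rt
    ((κ : ∀ i : Fin 3, ZMod ((Y.Z s).M i)) i)

omit [Fintype S₂] [Fintype S₃] [Fintype S₅] in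
theorem Fly.Cl2.pr5 {s : S₅} {f : Y.P (.inr (.inr (.inr (.inl s)))) → Y.P (.inr (.inr (.inr (.inl s)))) → W}
    (hf : Y.Cl2 f) (c c' : Y.K (.inr (.inr (.inr (.inl s))))) :
    Y.Cl2 (Y.pr2 (.inr (.inr (.inr (.inl s)))) (.inr (.inr (.inr (.inl s)))) c c' f) := by
  have h1 := Fly.Cl2.sum (Y := Y) (Finset.univ : Finset (Y.K (.inr (.inr (.inr (.inl s)))) ×
    Y.K (.inr (.inr (.inr (.inl s)))))) (fun κ => Y.wt (.inr (.inr (.inr (.inl s)))) c κ.1 *
      Y.wt (.inr (.inr (.inr (.inl s)))) c' κ.2) fun κ => hf.act5 (fun i => BBP.rt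
        ((κ.1 : ∀ i : Fin 3, ZMod ((Y.Z s).M i)) i)) fun i => BBP.rt
          ((κ.2 : ∀ i : Fin 3, ZMod ((Y.Z s).M i)) i)
  have h2 : Y.pr2 (.inr (.inr (.inr (.inl s)))) (.inr (.inr (.inr (.inl s)))) c c' f = fun p q =>
      ∑ κ : Y.K (.inr (.inr (.inr (.inl s)))) × Y.K (.inr (.inr (.inr (.inl s)))),
        (Y.wt (.inr (.inr (.inr (.inl s)))) c κ.1 * Y.wt (.inr (.inr (.inr (.inl s)))) c' κ.2) •
          f (Y.act (.inr (.inr (.inr (.inl s)))) (fun i => BBP.rt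
            ((κ.1 : ∀ i : Fin 3, ZMod ((Y.Z s).M i)) i)) p)
            (Y.act (.inr (.inr (.inr (.inl s)))) (fun i => BBP.rt
              ((κ.2 : ∀ i : Fin 3, ZMod ((Y.Z s).M i)) i)) q) := by
    funext p q
    rw [Fintype.sum_prod_type]
    rfl
  rw [h2]
  exact h1

private theorem rot_eq5 {n : ℕ} (i : Fin n) (u : ℂ) (P : Fin n → Option ℂ) :
    HYG.rot i u P = HYG.rotA (Function.update (1 : Fin n → ℂ) i u) P := by
  funext j
  unfold HYG.rot HYG.rotA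
  by_cases hj : j = i
  · subst hj
    rw [Function.update_self, Function.update_self]
  · rw [Function.update_of_ne hj, Function.update_of_ne hj, Pi.one_apply]
    simp

omit [Fintype S₂] [Fintype S₃] [Fintype S₅] [∀ s, NeZero (Y.d s)]
  in
/-- the automorphism which multiplies the coordinate `i` by `u` -/
private theorem exists_root5 {s : S₅} (i : Fin 3) {u : ℂ} (hu : u ^ (Y.Z s).M i = 1) :
    ∃ h : ∀ j : Fin 3, rootsOfUnity ((Y.Z s).M j) ℂ,
      (fun j => ((h j : ℂˣ) : ℂ)) = Function.update (1 : Fin 3 → ℂ) i u := by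
  have hu0 : u ≠ 0 := by
    intro h
    rw [h, zero_pow (NeZero.ne _)] at hu
    exact zero_ne_one hu
  refine ⟨Function.update 1 i ⟨Units.mk0 u hu0, by
    rw [mem_rootsOfUnity]
    ext
    exact hu⟩, ?_⟩
  funext j
  by_cases hj : j = i
  · subst hj
    rw [Function.update_self, Function.update_self]
    rfl
  · rw [Function.update_of_ne hj, Function.update_of_ne hj]
    rfl

private theorem prod_upd5 {n : ℕ} (i : Fin n) (u : ℂ) (a : Fin n → ℕ) :
    (∏ j, (Function.update (1 : Fin n → ℂ) i u) j ^ a j) = u ^ a i := by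
  rw [Fintype.prod_eq_single i]
  · rw [Function.update_self]
  · intro j hj
    rw [Function.update_of_ne hj, Pi.one_apply, one_pow]

omit [Fintype S₂] [Fintype S₃] [Fintype S₅] [∀ s, NeZero (Y.d s)]
  [∀ s i, NeZero ((Y.V s).M i)] [∀ s i, NeZero ((Y.Z s).M i)] in
private theorem chi_upd5 {s : S₅} (c : ∀ i : Fin 3, ZMod ((Y.Z s).M i))
    (i : Fin 3) (u : ℂ) (h : ∀ j : Fin 3, rootsOfUnity ((Y.Z s).M j) ℂ)
    (hh : (fun j => ((h j : ℂˣ) : ℂ)) = Function.update (1 : Fin 3 → ℂ) i u) :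
    Y.chi (.inr (.inr (.inr (.inl s)))) c h = u ^ (c i).val := by
  rw [← prod_upd5 i u fun i => (c i).val, ← hh]
  rfl

omit [Fintype S₂] [Fintype S₃] [Fintype S₅] in
/-- the eigenfunctions -/
theorem cls5 {s : S₅} {f : Y.P (.inr (.inr (.inr (.inl s)))) → W} (hf : Y.Cl1 f)
    (c : ∀ i : Fin 3, ZMod ((Y.Z s).M i)) :
    GOX.IsCls₁ (Y.Z s) (fun i (u : ℂ) => u ^ (c i).val)
      (f5 (Y.pr (.inr (.inr (.inr (.inl s)))) c f)) := by
  refine ⟨(hf.pr5 c).isCF5, fun σ P i u hu => ?_⟩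
  obtain ⟨h, hh⟩ := exists_root5 (Y := Y) i hu
  rw [rot_eq5, ← hh, f5_act]
  have h1 : (fun p => Y.pr (.inr (.inr (.inr (.inl s)))) c f (Y.act (.inr (.inr (.inr (.inl s)))) h p)) =
      fun p => u ^ (c i).val • Y.pr (.inr (.inr (.inr (.inl s)))) c f p := by
    funext p
    rw [pr_act₄, chi_upd5 c i u h hh]
  rw [h1, f5_smul]

omit [Fintype S₂] [Fintype S₃] [Fintype S₅] in
theorem pr_const₄ (hY : Y.Ok) {s : S₅} {f : Y.P (.inr (.inr (.inr (.inl s)))) → W} (hf : Y.Cl1 f)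
    (c : ∀ i : Fin 3, ZMod ((Y.Z s).M i)) (hc : ∀ i, c i = 0)
    (p q : Y.P (.inr (.inr (.inr (.inl s))))) :
    Y.pr (.inr (.inr (.inr (.inl s)))) c f p = Y.pr (.inr (.inr (.inr (.inl s)))) c f q := by
  obtain ⟨σ, P, hP⟩ := exists_opt5 p
  obtain ⟨σ', Q, hQ⟩ := exists_opt5 q
  have e1 : f5 (Y.pr (.inr (.inr (.inr (.inl s)))) c f) σ P = Y.pr (.inr (.inr (.inr (.inl s)))) c f p :=
    f5_eq _ hP
  have e2 : f5 (Y.pr (.inr (.inr (.inr (.inl s)))) c f) σ' Q = Y.pr (.inr (.inr (.inr (.inl s)))) c f q :=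
    f5_eq _ hQ
  refine e1.symm.trans (Eq.trans ?_ e2)
  refine (cls5 hf c).ind (hY.form₅ s) (fun i => lt_of_lt_of_le two_pos (hY.exp₅ s i)) (i := 0)
    (fun u _ => ?_) ((mem5_iff σ P).1 (hP ▸ p.2)) ((mem5_iff σ' Q).1 (hQ ▸ q.2))
  rw [hc 0, ZMod.val_zero, pow_zero]

omit [Fintype S₂] [Fintype S₃] [Fintype S₅] in
theorem pr_zero₄ (hY : Y.Ok) {s : S₅} {f : Y.P (.inr (.inr (.inr (.inl s)))) → W} (hf : Y.Cl1 f)
    (c : ∀ i : Fin 3, ZMod ((Y.Z s).M i)) {i j : Fin 3} (hi : c i ≠ 0)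
    (hj : c j = 0) (p : Y.P (.inr (.inr (.inr (.inl s))))) :
    Y.pr (.inr (.inr (.inr (.inl s)))) c f p = 0 := by
  obtain ⟨σ, P, hP⟩ := exists_opt5 p
  have e1 : f5 (Y.pr (.inr (.inr (.inr (.inl s)))) c f) σ P = Y.pr (.inr (.inr (.inr (.inl s)))) c f p :=
    f5_eq _ hP
  refine e1.symm.trans ?_
  refine (cls5 hf c).mixed (hY.form₅ s) (fun i => lt_of_lt_of_le two_pos (hY.exp₅ s i)) (i := j)
    (j := i) (fun u _ => ?_) ?_
    ((mem5_iff σ P).1 (hP ▸ p.2))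
  · rw [hj, ZMod.val_zero, pow_zero]
  · exact HYG.exists_nontriv (fun h => hi ((ZMod.val_eq_zero _).1 h)) (ZMod.val_lt _)

omit [Fintype S₂] [Fintype S₃] [Fintype S₅] in
private theorem pr2_left5 {s : S₅} (c c' : Y.K (.inr (.inr (.inr (.inl s)))))
    (f : Y.P (.inr (.inr (.inr (.inl s)))) → Y.P (.inr (.inr (.inr (.inl s)))) → W)
    (p q : Y.P (.inr (.inr (.inr (.inl s))))) :
    Y.pr2 (.inr (.inr (.inr (.inl s)))) (.inr (.inr (.inr (.inl s)))) c c' f p q =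
      Y.pr (.inr (.inr (.inr (.inl s)))) c (fun p => ∑ κ' : Y.K (.inr (.inr (.inr (.inl s)))),
        Y.wt (.inr (.inr (.inr (.inl s)))) c' κ' • f p (Y.av (.inr (.inr (.inr (.inl s)))) κ' q)) p := by
  unfold Fly.pr2 Fly.pr
  simp only [Finset.smul_sum, mul_smul]

omit [Fintype S₂] [Fintype S₃] [Fintype S₅] in
private theorem pr2_right5 {s : S₅} (c c' : Y.K (.inr (.inr (.inr (.inl s)))))
    (f : Y.P (.inr (.inr (.inr (.inl s)))) → Y.P (.inr (.inr (.inr (.inl s)))) → W)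
    (p q : Y.P (.inr (.inr (.inr (.inl s))))) :
    Y.pr2 (.inr (.inr (.inr (.inl s)))) (.inr (.inr (.inr (.inl s)))) c c' f p q =
      Y.pr (.inr (.inr (.inr (.inl s)))) c' (fun q => ∑ κ : Y.K (.inr (.inr (.inr (.inl s)))),
        Y.wt (.inr (.inr (.inr (.inl s)))) c κ • f (Y.av (.inr (.inr (.inr (.inl s)))) κ p) q) q := by
  unfold Fly.pr2 Fly.pr
  rw [Finset.sum_comm]
  simp only [Finset.smul_sum, mul_smul]
  refine Finset.sum_congr rfl fun κ' _ => Finset.sum_congr rfl fun κ _ => ?_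
  rw [smul_comm]

omit [Fintype S₂] [Fintype S₃] [Fintype S₅] in
theorem pr_swap₄ (hY : Y.Ok) {s : S₅}
    {f : Y.P (.inr (.inr (.inr (.inl s)))) → Y.P (.inr (.inr (.inr (.inl s)))) → W} (hf : Y.Cl2 f)
    (c : ∀ i : Fin 3, ZMod ((Y.Z s).M i)) (hc : ∀ i, c i ≠ 0)
    (p q : Y.P (.inr (.inr (.inr (.inl s))))) :
    Y.pr2 (.inr (.inr (.inr (.inl s)))) (.inr (.inr (.inr (.inl s)))) c c f p q =
      (-1 : ℂ) ^ Y.n (.inr (.inr (.inr (.inl s)))) •
        Y.pr2 (.inr (.inr (.inr (.inl s)))) (.inr (.inr (.inr (.inl s)))) c c f q p := by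
  obtain ⟨σ, P, hP⟩ := exists_opt5 p
  obtain ⟨σ', Q, hQ⟩ := exists_opt5 q
  set E : Option ℂ → (Fin 3 → Option ℂ) → Option ℂ → (Fin 3 → Option ℂ) → W :=
    fun σ P σ' Q => f5 (fun p => f5 (fun q =>
      Y.pr2 (.inr (.inr (.inr (.inl s)))) (.inr (.inr (.inr (.inl s)))) c c f p q) σ' Q) σ P with hE
  have hEpq : E σ P σ' Q = Y.pr2 (.inr (.inr (.inr (.inl s)))) (.inr (.inr (.inr (.inl s)))) c c f p q := by
    rw [hE]
    beta_reduce
    rw [f5_eq _ hP, f5_eq _ hQ]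
  have hEqp : E σ' Q σ P = Y.pr2 (.inr (.inr (.inr (.inl s)))) (.inr (.inr (.inr (.inl s)))) c c f q p := by
    rw [hE]
    beta_reduce
    rw [f5_eq _ hQ, f5_eq _ hP]
  have hχ : HYG.Chars (Y.Z s).M (fun i (u : ℂ) => u ^ (c i).val) := by
    refine ⟨fun i u u' _ _ => mul_pow _ _ _, fun i => ?_, fun i => one_pow _⟩
    exact HYG.exists_nontriv (fun h => hc i ((ZMod.val_eq_zero _).1 h)) (ZMod.val_lt _)
  have hcls : GOX.IsCls₂ (Y.Z s) (fun i (u : ℂ) => u ^ (c i).val) E := by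
    refine ⟨(hf.pr5 c c).isCF5, fun σ P σ' Q i u hu => ?_, fun σ P σ' Q i u hu => ?_⟩
    · obtain ⟨h, hh⟩ := exists_root5 (Y := Y) i hu
      rw [rot_eq5, ← hh, hE]
      beta_reduce
      rw [f5_act, ← f5_smul]
      congr 1
      funext p
      rw [← f5_smul]
      congr 1
      funext q
      rw [pr2_left5, pr_act₄, ← pr2_left5, chi_upd5 c i u h hh]
    · obtain ⟨h, hh⟩ := exists_root5 (Y := Y) i hu
      rw [rot_eq5, ← hh, hE]
      beta_reduce
      rw [← f5_smul]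
      congr 1
      funext p
      rw [f5_act, ← f5_smul]
      congr 1
      funext q
      rw [pr2_right5, pr_act₄, ← pr2_right5, chi_upd5 c i u h hh]
  have h1 := GOX.swap (fun i => lt_of_lt_of_le two_pos (hY.exp₅ s i)) hχ hcls
    ((mem5_iff σ' Q).1 (hQ ▸ q.2)) ((mem5_iff σ P).1 (hP ▸ p.2))
  rw [hEpq, hEqp] at h1
  rw [h1]
  change _ = (-1 : ℂ) ^ 3 • _
  rw [Odd.neg_one_pow (by decide), neg_smul, one_smul]

end Pool.Agent.BBO
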