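import Pool.Agent.BBM.Filt
import Pool.Agent.BBM.MapCyc
import Pool.Agent.BBO.Defs

/-!
# The filtration is the only one with the properties 1-4

A filtration on the zero-cycles on all `Y ^ m` which has the properties of a Bloch-Beilinson
filtration for the correspondences in question is equal to `Fil`. For a set `I` of factors and a
point `y` the combination `∏ i ∈ I, (1 - e i)` of morphisms, where `e i` replaces the coordinate `i`
by `y i`, is a projector which kills all forms of degree less than the dimension of the factors `I`,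
and its values on points are the cycles which generate the filtration `Fil`.
-/

set_option autoImplicit false

noncomputable section

namespace Pool.Agent.BBO

open Pool.Agent.BBM

variable {S : Type} [Fintype S] [DecidableEq S] {P G Form : S → Type} {m m' : S → ℕ}

/-- The correspondence `γ` from `Y ^ m` to `Y ^ m'` acts as zero on the holomorphic `ν`-forms. -/
def Kills (n : S → ℕ) (om : ∀ s, Form s → G s → ℂ) (γ : Mor P G m m' →₀ ℚ) (ν : ℕ) : Prop :=
  ∀ k : S → ℕ, ν = ∑ s, n s * k s → ∀ (I : ∀ s, Fin (k s) ↪o Fin (m s))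
    (J : ∀ s, Fin (k s) ↪o Fin (m' s)) (b b' : ∀ i : Idx k, Form i.1),
      ∑ f ∈ γ.support, (γ f : ℂ) * BBO.coefOf n om f I J b b' = 0

/-! ### The projectors -/

/-- the coordinates in `U` are replaced by those of `y` -/
private def rep (e : ∀ s, G s) (y : Pts P m) (U : Finset (Idx m)) : Mor P G m m :=
  fun j => if j ∈ U then Comp.const (y j) else Comp.fac j.2 (e j.1)

omit [Fintype S] in
private lemma rep_app {act : ∀ s, G s → P s → P s} {e : ∀ s, G s}
    (he : ∀ s p, act s (e s) p = p) (y : Pts P m) (U : Finset (Idx m)) (x : Pts P m) :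
    (rep e y U).app act x = fun j => if j ∈ U then y j else x j := by
  funext j
  by_cases h : j ∈ U
  · simp only [rep, Mor.app, if_pos h, Comp.app]
  · simp only [rep, Mor.app, if_neg h, Comp.app, he]

/-- the projector `∏ i ∈ I, (1 - e i)` -/
private def dl (e : ∀ s, G s) (y : Pts P m) (I : Finset (Idx m)) : Mor P G m m →₀ ℚ :=
  ∑ U ∈ I.powerset, Finsupp.single (rep e y U) ((-1) ^ U.card)

omit [Fintype S] [DecidableEq S] in
private lemma push_eq (act : ∀ s, G s → P s → P s) (γ : Mor P G m m' →₀ ℚ)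
    (z : Pts P m →₀ ℚ) : pushM act γ z = γ.sum fun f c => c • z.mapDomain (f.app act) := by
  unfold pushM
  rw [Finsupp.sum, LinearMap.sum_apply]
  rfl

omit [Fintype S] [DecidableEq S] in
private lemma push_single (act : ∀ s, G s → P s → P s) (f : Mor P G m m') (c : ℚ)
    (z : Pts P m →₀ ℚ) : pushM act (Finsupp.single f c) z = c • z.mapDomain (f.app act) := by
  rw [push_eq, Finsupp.sum_single_index (by simp)]

omit [Fintype S] in
private lemma push_dl (act : ∀ s, G s → P s → P s) (e : ∀ s, G s) (y : Pts P m)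
    (I : Finset (Idx m)) (z : Pts P m →₀ ℚ) :
    pushM act (dl e y I) z =
      ∑ U ∈ I.powerset, ((-1 : ℚ) ^ U.card) • z.mapDomain ((rep e y U).app act) := by
  rw [push_eq]
  unfold dl
  rw [← Finsupp.sum_finsetSum_index (fun f => by simp) (fun f a c => by rw [add_smul])]
  exact Finset.sum_congr rfl fun U _ => Finsupp.sum_single_index (by simp)

omit [Fintype S] in
private lemma push_dl_single {act : ∀ s, G s → P s → P s} {e : ∀ s, G s}
    (he : ∀ s p, act s (e s) p = p) (y : Pts P m) (I : Finset (Idx m)) (x : Pts P m) (c : ℚ) :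
    pushM act (dl e y I) (Finsupp.single x c) = c • cyc ℚ I x y := by
  rw [push_dl]
  unfold cyc
  rw [Finset.smul_sum]
  refine Finset.sum_congr rfl fun U _ => ?_
  rw [Finsupp.mapDomain_single, rep_app he, Finsupp.smul_single, Finsupp.smul_single, smul_eq_mul,
    smul_eq_mul, mul_comm]

omit [Fintype S] in
private lemma cyc_insert' (J : Finset (Idx m)) {i : Idx m} (hi : i ∉ J) (x y : Pts P m) :
    cyc ℚ (insert i J) x y = cyc ℚ J x y - cyc ℚ J (Function.update x i (y i)) y := by
  unfold cyc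
  rw [Finset.sum_powerset_insert hi, sub_eq_add_neg, ← Finset.sum_neg_distrib]
  congr 1
  apply Finset.sum_congr rfl
  intro T hT
  rw [Finset.mem_powerset] at hT
  have hiT : i ∉ T := fun h => hi (hT h)
  rw [← Finsupp.single_neg, Finset.card_insert_of_notMem hiT, pow_succ, mul_neg_one]
  congr 1
  funext l
  by_cases hl : l = i
  · subst hl
    rw [if_pos (Finset.mem_insert_self _ _), if_neg hiT, Function.update_self]
  · by_cases hlT : l ∈ T
    · rw [if_pos (Finset.mem_insert_of_mem hlT), if_pos hlT]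
    · rw [if_neg, if_neg hlT, Function.update_of_ne hl]
      rw [Finset.mem_insert]
      rintro (h | h)
      · exact hl h
      · exact hlT h

omit [Fintype S] in
private lemma cyc_eq_zero {I : Finset (Idx m)} {i : Idx m} (hi : i ∈ I) {x y : Pts P m}
    (h : x i = y i) : cyc ℚ I x y = 0 := by
  have h1 := cyc_insert' (I.erase i) (Finset.notMem_erase i I) x y
  rw [Finset.insert_erase hi] at h1
  rw [h1, ← h, Function.update_eq_self, sub_self]

omit [Fintype S] in
/-- the projector leaves the product of the differences unchanged -/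
private lemma push_dl_cyc {act : ∀ s, G s → P s → P s} {e : ∀ s, G s}
    (he : ∀ s p, act s (e s) p = p) (x y : Pts P m) (I : Finset (Idx m)) :
    pushM act (dl e y I) (cyc ℚ I x y) = cyc ℚ I x y := by
  have h1 : pushM act (dl e y I) (cyc ℚ I x y) = ∑ T ∈ I.powerset,
      ((-1 : ℚ) ^ T.card) • cyc ℚ I (fun i => if i ∈ T then y i else x i) y := by
    conv_lhs =>
      rw [cyc]
    rw [map_sum]
    exact Finset.sum_congr rfl fun T _ => push_dl_single he y I _ _
  rw [h1, Finset.sum_eq_single ∅]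
  · simp
  · intro T hT hne
    obtain ⟨i, hi⟩ := Finset.nonempty_iff_ne_empty.2 hne
    rw [cyc_eq_zero (Finset.mem_powerset.1 hT hi), smul_zero]
    simp only [if_pos hi]
  · intro h
    exact absurd (Finset.empty_mem_powerset I) h

/-! ### The action on forms -/

omit [DecidableEq S] in
private lemma coefOf_congr (n : S → ℕ) (om : ∀ s, Form s → G s → ℂ) {k : S → ℕ}
    {f f' : Mor P G m m'} (I : ∀ s, Fin (k s) ↪o Fin (m s)) (J : ∀ s, Fin (k s) ↪o Fin (m' s))
    (h : ∀ i : Idx k, f ⟨i.1, J i.1 i.2⟩ = f' ⟨i.1, J i.1 i.2⟩) (b b' : ∀ i : Idx k, Form i.1) :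
    BBO.coefOf n om f I J b b' = BBO.coefOf n om f' I J b b' := by
  have h1 : Induces f I J = Induces f' I J := by
    funext τ g
    unfold Induces
    exact propext (forall_congr' fun i => by rw [h i])
  unfold BBO.coefOf
  rw [h1]

omit [DecidableEq S] in
private lemma coefOf_zero (n : S → ℕ) (om : ∀ s, Form s → G s → ℂ) {k : S → ℕ}
    {f : Mor P G m m'} (I : ∀ s, Fin (k s) ↪o Fin (m s)) (J : ∀ s, Fin (k s) ↪o Fin (m' s))
    (i : Idx k) (p : P i.1) (h : f ⟨i.1, J i.1 i.2⟩ = Comp.const p)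
    (b b' : ∀ i : Idx k, Form i.1) :
    BBO.coefOf n om f I J b b' = 0 := by
  unfold BBO.coefOf
  rw [dif_neg]
  rintro ⟨g, hg, -⟩
  have h1 := hg i
  rw [h] at h1
  cases h1

private lemma mem_range_iff {k : S → ℕ} {I : ∀ s, Fin (k s) ↪o Fin (m s)} {i : Idx m} :
    i ∈ range I ↔ ∃ b, I i.1 b = i.2 := by
  obtain ⟨s, j⟩ := i
  unfold range
  rw [Finset.mem_image]
  constructor
  · rintro ⟨⟨t, b⟩, -, hb⟩
    injection hb with h1 h2
    subst h1
    exact ⟨b, eq_of_heq h2⟩
  · rintro ⟨b, hb⟩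
    refine ⟨⟨s, b⟩, Finset.mem_univ _, ?_⟩
    simp only at hb ⊢
    rw [hb]

private lemma sum_range (n : S → ℕ) {k : S → ℕ} (J : ∀ s, Fin (k s) ↪o Fin (m s)) :
    ∑ i ∈ range J, n i.1 = ∑ s, n s * k s := by
  unfold range
  rw [Finset.sum_image, Fintype.sum_sigma]
  · refine Finset.sum_congr rfl fun s _ => ?_
    simp [mul_comm]
  · rintro ⟨s, a⟩ _ ⟨s', a'⟩ _ h
    obtain ⟨h1, h2⟩ := Sigma.mk.inj_iff.1 h
    dsimp only at h1 h2
    subst h1
    rw [(J s).injective (eq_of_heq h2)]

/-- the projector kills the forms of degree less than the dimension of the factors `I` -/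
private lemma kills_dl (n : S → ℕ) (om : ∀ s, Form s → G s → ℂ) (e : ∀ s, G s) (y : Pts P m)
    {I : Finset (Idx m)} {ν : ℕ} (hν : ν < ∑ i ∈ I, n i.1) : Kills n om (dl e y I) ν := by
  intro k hk I' J b b'
  have h1 : ∑ f ∈ (dl e y I).support, (dl e y I f : ℂ) * BBO.coefOf n om f I' J b b' =
      (dl e y I).sum fun f c => (c : ℂ) * BBO.coefOf n om f I' J b b' := rfl
  rw [h1]
  unfold dl
  rw [← Finsupp.sum_finsetSum_index (fun f => by simp) (fun f a c => by push_cast; ring)]
  obtain ⟨i, hi, hiJ⟩ : ∃ i ∈ I, i ∉ range J := by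
    by_contra hcon
    push Not at hcon
    have h2 : ∑ i ∈ I, n i.1 ≤ ∑ i ∈ range J, n i.1 := Finset.sum_le_sum_of_subset hcon
    rw [sum_range] at h2
    omega
  rw [← Finset.insert_erase hi, Finset.sum_powerset_insert (Finset.notMem_erase i I),
    ← Finset.sum_add_distrib]
  refine Finset.sum_eq_zero fun T hT => ?_
  have hiT : i ∉ T := fun h2 => Finset.notMem_erase i I (Finset.mem_powerset.1 hT h2)
  rw [Finsupp.sum_single_index (by simp), Finsupp.sum_single_index (by simp),
    Finset.card_insert_of_notMem hiT]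
  have h3 : BBO.coefOf n om (rep e y (insert i T)) I' J b b' =
      BBO.coefOf n om (rep e y T) I' J b b' := by
    apply coefOf_congr
    intro j
    have hj : (⟨j.1, J j.1 j.2⟩ : Idx m) ≠ i := by
      rintro rfl
      exact hiJ (mem_range_iff.2 ⟨_, rfl⟩)
    unfold rep
    by_cases h4 : (⟨j.1, J j.1 j.2⟩ : Idx m) ∈ T
    · rw [if_pos h4, if_pos (Finset.mem_insert_of_mem h4)]
    · rw [if_neg h4, if_neg]
      rw [Finset.mem_insert]
      rintro (h5 | h5)
      · exact hj h5
      · exact h4 h5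
  rw [h3, pow_succ]
  push_cast
  ring

/-! ### Projections to products of less factors -/

/-- to the factors `J` -/
private def toJ (e : ∀ s, G s) {k : S → ℕ} (J : ∀ s, Fin (k s) ↪o Fin (m s)) : Mor P G m k :=
  fun i => Comp.fac (J i.1 i.2) (e i.1)

private lemma emb_toJ {act : ∀ s, G s → P s → P s} {e : ∀ s, G s}
    (he : ∀ s p, act s (e s) p = p) (o : ∀ s, P s) {k : S → ℕ}
    (J : ∀ s, Fin (k s) ↪o Fin (m s)) (U : Finset (Idx m)) (hU : range J = Uᶜ) (x : Pts P m) :
    (rep e (fun j => o j.1) U).app act x = (emb e o J).app act ((toJ e J).app act x) := by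
  rw [rep_app he]
  funext j
  have h1 : j ∈ U ↔ ¬ ∃ b, J j.1 b = j.2 := by
    rw [← mem_range_iff, hU, Finset.mem_compl, not_not]
  by_cases h : ∃ b, J j.1 b = j.2
  · rw [if_neg (fun h2 => h1.1 h2 h)]
    unfold Mor.app emb toJ
    rw [dif_pos h]
    simp only [Comp.app, he]
    rw [h.choose_spec]
  · rw [if_pos (h1.2 h)]
    unfold Mor.app emb
    rw [dif_neg h]
    rfl

/-- the numbers of the factors of type `s` in `K` -/
private def sec (K : Finset (Idx m)) (s : S) : Finset (Fin (m s)) :=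
  Finset.univ.filter fun j : Fin (m s) => (⟨s, j⟩ : Idx m) ∈ K

omit [Fintype S] in
private lemma mem_sec {K : Finset (Idx m)} {s : S} {j : Fin (m s)} :
    j ∈ sec K s ↔ (⟨s, j⟩ : Idx m) ∈ K := by
  simp [sec]

private lemma card_sec (K : Finset (Idx m)) : K.card = ∑ s, (sec K s).card := by
  have h1 : K = (Finset.univ : Finset S).sigma (sec K) := by
    ext ⟨s, j⟩
    simp [mem_sec]
  conv_lhs => rw [h1]
  rw [Finset.card_sigma]

private lemma exists_emb (U : Finset (Idx m)) : ∃ (k : S → ℕ) (J : ∀ s, Fin (k s) ↪o Fin (m s)),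
    range J = Uᶜ ∧ ∑ s, k s + U.card = ∑ s, m s := by
  refine ⟨fun s => (sec Uᶜ s).card, fun s => (sec Uᶜ s).orderEmbOfFin rfl, ?_, ?_⟩
  · ext ⟨s, j⟩
    rw [mem_range_iff, ← mem_sec]
    have h1 := Finset.range_orderEmbOfFin (sec Uᶜ s) rfl
    constructor
    · rintro ⟨b, hb⟩
      have h2 : (sec Uᶜ s).orderEmbOfFin rfl b = j := hb
      rw [← h2]
      exact Finset.orderEmbOfFin_mem _ _ _
    · intro h
      have h2 : j ∈ Set.range ((sec Uᶜ s).orderEmbOfFin rfl) := by
        rw [h1]
        exact h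
      exact h2
  · rw [← card_sec, Finset.card_compl]
    have h1 : Fintype.card (Idx m) = ∑ s, m s := by
      rw [Fintype.card_sigma]
      simp
    have h2 := Finset.card_le_univ U
    omega

/-! ### Uniqueness -/

section

variable {n : S → ℕ} {om : ∀ s, Form s → G s → ℂ} {act : ∀ s, G s → P s → P s} {e : ∀ s, G s}
  {rat : ∀ m : S → ℕ, Submodule ℚ (Pts P m →₀ ℚ)}
  {Φ : ∀ m : S → ℕ, ℕ → Submodule ℚ (Pts P m →₀ ℚ)}

omit [Fintype S] [DecidableEq S] in
private lemma anti (hanti : ∀ m ν, Φ m (ν + 1) ≤ Φ m ν) {ν ν' : ℕ} (h : ν ≤ ν') :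
    Φ m ν' ≤ Φ m ν := by
  induction ν', h using Nat.le_induction with
  | base => exact le_rfl
  | succ k _ ih => exact (hanti m k).trans ih

private lemma Fil_le (he : ∀ s p, act s (e s) p = p) (hge : ∀ m ν, rat m ≤ Φ m ν)
    (hanti : ∀ m ν, Φ m (ν + 1) ≤ Φ m ν) (h0 : ∀ m, Φ m 0 = ⊤)
    (hgrad : ∀ m m' ν (γ : Mor P G m m' →₀ ℚ), Kills n om γ ν →
      (Φ m ν).map (pushM act γ) ≤ Φ m' (ν + 1)) (m : S → ℕ) (ν : ℕ) :
    Fil rat n m ν ≤ Φ m ν := by
  unfold Fil
  refine sup_le (Submodule.span_le.2 ?_) (hge m ν)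
  rintro _ ⟨I, x, y, hI, rfl⟩
  have h1 : ∀ μ ≤ ∑ i ∈ I, n i.1, cyc ℚ I x y ∈ Φ m μ := by
    intro μ
    induction μ with
    | zero =>
      intro _
      rw [h0]
      exact Submodule.mem_top
    | succ μ ih =>
      intro hμ
      rw [← push_dl_cyc he x y I]
      exact hgrad m m μ _ (kills_dl n om e y (Nat.lt_of_succ_le hμ))
        (Submodule.mem_map_of_mem (ih (Nat.le_of_succ_le hμ)))
  exact anti hanti hI (h1 _ le_rfl)

private lemma le_Fil [∀ s, Nonempty (P s)] (he : ∀ s p, act s (e s) p = p)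
    (hrat : ∀ (m m' : S → ℕ) (f : Mor P G m m'),
      (rat m).map (Finsupp.lmapDomain ℚ ℚ (f.app act)) ≤ rat m')
    (hanti : ∀ m ν, Φ m (ν + 1) ≤ Φ m ν) (htop : ∀ m, Φ m (∑ s, n s * m s + 1) ≤ rat m)
    (hmap : ∀ m m' ν (γ : Mor P G m m' →₀ ℚ), (Φ m ν).map (pushM act γ) ≤ Φ m' ν) (N : ℕ) :
    ∀ (m : S → ℕ), ∑ s, m s = N → ∀ ν, Φ m ν ≤ Fil rat n m ν := by
  have o : ∀ s, P s := fun s => Classical.arbitrary _
  induction N using Nat.strong_induction_on with
  | _ N ih =>
    intro m hm ν z hz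
    rcases Nat.lt_or_ge (∑ s, n s * m s) ν with hν | hν
    · exact rat_le_Fil n ν (htop m (anti hanti hν hz))
    have h1 := push_dl act e (fun j : Idx m => o j.1) Finset.univ z
    have h2 : pushM act (dl e (fun j : Idx m => o j.1) Finset.univ) z ∈ Fil rat n m ν := by
      rw [← Finsupp.sum_single z, Finsupp.sum, map_sum]
      refine Submodule.sum_mem _ fun x _ => ?_
      rw [push_dl_single he]
      refine Submodule.smul_mem _ _ (cyc_mem n ν ?_)
      rw [Fintype.sum_sigma]
      refine hν.trans (le_of_eq (Finset.sum_congr rfl fun s _ => ?_))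
      simp [mul_comm]
    have h3 : z.mapDomain ((rep e (fun j : Idx m => o j.1) ∅).app act) = z := by
      have h4 : (rep e (fun j : Idx m => o j.1) ∅).app act = id := by
        funext x
        rw [rep_app he]
        simp
      rw [h4, Finsupp.mapDomain_id]
    rw [← Finset.sum_erase_add _ _ (Finset.empty_mem_powerset _), Finset.card_empty, pow_zero,
      one_smul, h3] at h1
    have h5 : ∑ U ∈ (Finset.univ : Finset (Idx m)).powerset.erase ∅, ((-1 : ℚ) ^ U.card) •
        z.mapDomain ((rep e (fun j : Idx m => o j.1) U).app act) ∈ Fil rat n m ν := by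
      refine Submodule.sum_mem _ fun U hU => Submodule.smul_mem _ _ ?_
      obtain ⟨k, J, hJ, hk⟩ := exists_emb U
      have hU' : 0 < U.card := Finset.card_pos.2
        (Finset.nonempty_iff_ne_empty.2 (Finset.mem_erase.1 hU).1)
      have h6 : (rep e (fun j : Idx m => o j.1) U).app act =
          (emb e o J).app act ∘ (toJ e J).app act := by
        funext x
        exact emb_toJ he o J U hJ x
      rw [h6, Finsupp.mapDomain_comp]
      refine Fil_map act n ν (emb e o J) (hrat _ _ _) (Submodule.mem_map_of_mem ?_)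
      refine ih (∑ s, k s) (by omega) k rfl ν ?_
      have h7 := hmap m k ν (Finsupp.single (toJ e J) 1) (Submodule.mem_map_of_mem hz)
      rw [push_single, one_smul] at h7
      exact h7
    have h8 := Submodule.sub_mem _ h2 h5
    rw [h1, add_sub_cancel_left] at h8
    exact h8

/-- the filtration is the only one with the properties 1-4 -/
theorem uniq [∀ s, Nonempty (P s)] (he : ∀ s p, act s (e s) p = p)
    (hrat : ∀ (m m' : S → ℕ) (f : Mor P G m m'),
      (rat m).map (Finsupp.lmapDomain ℚ ℚ (f.app act)) ≤ rat m')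
    (hge : ∀ m ν, rat m ≤ Φ m ν) (hanti : ∀ m ν, Φ m (ν + 1) ≤ Φ m ν) (h0 : ∀ m, Φ m 0 = ⊤)
    (htop : ∀ m, Φ m (∑ s, n s * m s + 1) ≤ rat m)
    (hmap : ∀ m m' ν (γ : Mor P G m m' →₀ ℚ), (Φ m ν).map (pushM act γ) ≤ Φ m' ν)
    (hgrad : ∀ m m' ν (γ : Mor P G m m' →₀ ℚ), Kills n om γ ν →
      (Φ m ν).map (pushM act γ) ≤ Φ m' (ν + 1)) (m : S → ℕ) (ν : ℕ) :
    Φ m ν = Fil rat n m ν :=
  le_antisymm (le_Fil he hrat hanti htop hmap _ m rfl ν) (Fil_le he hge hanti h0 hgrad m ν)

end

end Pool.Agent.BBO
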